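import Pool.Agent.TH183.QS.Wrap
import Pool.Agent.TH759.EV.Main

/-! General collisions of `11` and of `13` points (the two exact flattenings of
`Pool.Agent.TH759.EV.Chain`, for the abstract systems). -/

set_option autoImplicit false

namespace Pool.Agent.TH183.QS

open Finset Pool.Agent.TH176.Nag Pool.Agent.TH603.Sur Pool.Agent.TH183.QC Pool.Agent.TH183.QI
open Pool.Agent.TH183.QN (TT)
open Pool.Agent.TH759.EV (F1 F2 Par LL cond_iff par_of sq_sqrt')

/-- the rows, as columns -/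
def F3 (N m : ℕ) : Set (ℤ × ℤ) :=
  {p | 0 ≤ p.1 ∧ 0 ≤ p.2 ∧ p.2 < N * (m - p.1)}

universe u

variable {q s : ℤ} {L P : ℝ} {N m : ℕ}

theorem EmpA_F3 : EmpA (es N m) (F3 N m) := by
  refine (es_cl N m).comap 0 1 1 0 0 0 (by norm_num) ?_
  rintro ⟨a, b⟩ ⟨h1, h2, h3⟩
  simp only at h1 h2 h3
  refine ⟨by simp only; omega, by simp only; omega, ?_⟩
  simp only
  have h4 : b + 1 ≤ N * (m - a) := by omega
  have h5 : (b : ℝ) + 1 ≤ N * (m - a) := by exact_mod_cast h4
  push_cast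
  linarith

theorem SurA_F3 : SurA (ss N m) (F3 N m) := by
  refine (ss_op N m).comap 0 1 1 0 0 0 (by norm_num) ?_
  rintro ⟨a, b⟩ ⟨h1, h2, h3⟩
  simp only at h1 h2 h3
  push_cast at h3
  refine ⟨(b, a), ⟨h2, h1, ?_⟩, by simp⟩
  simp only
  have h4 : (a : ℝ) < N * (m - b) := by linarith
  exact_mod_cast h4

theorem EmpA_F2 (h : Par q s L P N) {d : ℕ}
    (hS : N * ((q : ℝ) * L * d - 1) < q * P * ((N * m : ℕ) : ℝ)) : EmpA (es N m) (F2 q L P d) := by
  refine EmpA_flat 0 1 0 1 (by norm_num) ?_ EmpA_F3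
  rintro ⟨e, g⟩ T k ⟨h1, h2, h3⟩ ⟨h4, h5, h6⟩ hk
  simp only at h1 h2 h3 h4 h5 h6
  have hR := h.R0
  have hP := h.P0
  have hq := h.qR
  have hT0 : 0 ≤ T := by omega
  have hT0R : (0 : ℝ) ≤ T := by exact_mod_cast hT0
  obtain ⟨X, hX⟩ : ∃ X : ℝ, X = L * d - P * g := ⟨_, rfl⟩
  obtain ⟨a, ha⟩ : ∃ a : ℝ, a = (e : ℝ) + 2 * d := ⟨_, rfl⟩
  have e1 : ((e - 1 * T : ℤ) : ℝ) + 2 * d = a - T := by rw [ha]; push_cast; ring
  have e2 : ((g + 0 * T : ℤ) : ℝ) = g := by push_cast; ring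
  rw [e1, e2] at h5 h6
  rw [← ha] at h2 h3
  have key : (q * P - 1) * (T : ℝ) ≤ (q * P - 1) * X + (X - P) := by
    rcases le_or_gt 1 (e + 2 * d) with ha1 | ha1
    · have h7 := h2 ha1
      have haR : (1 : ℝ) ≤ a := by rw [ha]; exact_mod_cast ha1
      rw [← hX] at h7
      rcases le_or_gt 1 (e - 1 * T + 2 * d) with hb1 | hb1
      · have hbR : (1 : ℝ) ≤ a - T := by rw [← e1]; exact_mod_cast hb1
        have h8 : (q * P - 1) * (T : ℝ) ≤ (q * P - 1) * (X - 1) :=
          mul_le_mul_of_nonneg_left (by linarith) hR.le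
        have h9 : P ≤ q * P := le_mul_of_one_le_left hP.le hq
        have h10 : (q * P - 1) * (X - 1) = (q * P - 1) * X - (q * P - 1) := by ring
        rw [h10] at h8
        linarith
      · have h8 := h6 (by omega)
        have h9 : (q * P - 1) * (T : ℝ) = (q * P - 1) * a - (q * P - 1) * (a - T) := by ring
        have h10 : (q * P - 1) * a ≤ (q * P - 1) * X := mul_le_mul_of_nonneg_left h7 hR.le
        rw [h9]
        have h11 : -((q * P - 1) * (a - T)) ≤ X - P := by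
          rw [hX]
          have e3 : ((g : ℝ) - q * (a - T) + 1) * P = P * g - (q * P) * (a - T) + P := by ring
          rw [e3] at h8
          have e4 : (q * P - 1) * (a - T) = (q * P) * (a - T) - (a - T) := by ring
          rw [e4]
          linarith
        linarith
    · have h8 := h6 (by omega)
      have haR : a ≤ 0 := by
        rw [ha]
        have : e + 2 * d ≤ 0 := by omega
        exact_mod_cast this
      have h11 : -((q * P - 1) * (a - T)) ≤ X - P := by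
        rw [hX]
        have e3 : ((g : ℝ) - q * (a - T) + 1) * P = P * g - (q * P) * (a - T) + P := by ring
        rw [e3] at h8
        have e4 : (q * P - 1) * (a - T) = (q * P) * (a - T) - (a - T) := by ring
        rw [e4]
        linarith
      have h12 : (q * P - 1) * (T : ℝ) ≤ -((q * P - 1) * (a - T)) := by
        have : 0 ≤ (q * P - 1) * (-a) := mul_nonneg hR.le (by linarith)
        linarith [this, show -((q * P - 1) * (a - T)) = (q * P - 1) * (-a) + (q * P - 1) * (T : ℝ) by ring]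
      have h13 : 0 ≤ (q * P - 1) * (T : ℝ) := mul_nonneg hR.le hT0R
      have h14 : 0 ≤ (q * P - 1) * X := mul_nonneg hR.le (by linarith)
      linarith
  have h15 := h.fin hS hX key
  have h16 : T < ((N * m : ℕ) : ℤ) - N * g := by exact_mod_cast h15
  refine ⟨by simp only; omega, by simp, ?_⟩
  simp only
  have e5 : 0 * e + 1 * g = g := by ring
  rw [e5]
  push_cast at h16
  have e6 : (N : ℤ) * (m - g) = N * m - N * g := by ring
  rw [e6]
  omega

theorem SurA_F2 (h : Par q s L P N) {d : ℕ}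
    (hS : q * P * ((N * m : ℕ) : ℝ) ≤ N * ((q : ℝ) * L * d - 1)) :
    SurA (ss N m) (F2 q L P d) := by
  refine SurA_flat 0 1 0 1 (by norm_num) ?_ SurA_F3
  rintro ⟨g, k⟩ ⟨h1, h2, h3⟩
  simp only at h1 h2 h3
  obtain ⟨M, hM⟩ : ∃ M : ℕ, M = N * m := ⟨_, rfl⟩
  rw [← hM] at hS
  have hkM : k + 1 ≤ (M : ℤ) - N * g := by
    have e6 : (N : ℤ) * (m - g) = N * m - N * g := by ring
    rw [e6] at h3
    rw [hM]
    push_cast
    omega
  have hR := h.R0
  have hP := h.P0
  have hq := h.qR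
  obtain ⟨X, hX⟩ : ∃ X : ℝ, X = L * d - P * g := ⟨_, rfl⟩
  -- `X + Y ≥ M - N g`
  have h4 : (q * P - 1) * ((M : ℝ) - N * g) ≤ (q * P - 1) * X + (X - P) := by
    have hN0 : (0 : ℝ) < N := by
      have h5 : (N : ℝ) = 9 + 2 * s := by exact_mod_cast h.hN
      have h6 : (1 : ℝ) ≤ s := by exact_mod_cast h.hs
      rw [h5]; linarith
    have h5 : P * (q * P * M) ≤ P * (N * (q * L * d - 1)) := mul_le_mul_of_nonneg_left hS hP.le
    have e3 : P * (q * P * M) = N * ((q * P - 1) * M) := by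
      have : P * (q * P * M) = (q * P ^ 2) * M := by ring
      rw [this, h.P2]; ring
    have h6 : (q * P - 1) * M ≤ P * (q * L * d - 1) := by
      rw [e3] at h5
      have : P * (N * (q * L * d - 1)) = N * (P * (q * L * d - 1)) := by ring
      rw [this] at h5
      exact le_of_mul_le_mul_left h5 hN0
    have e1 : ((q : ℝ) * P - 1) * X + (X - P) = P * (q * L * d - 1) - q * P ^ 2 * g := by
      rw [hX]; ring
    have e2 : ((q : ℝ) * P - 1) * (M - N * g) = (q * P - 1) * M - q * P ^ 2 * g := by rw [h.P2]; ring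
    rw [e1, e2]
    linarith
  have h5 : (k : ℝ) + 1 ≤ M - N * g := by exact_mod_cast hkM
  have hA1 := Int.floor_le X
  have hA2 := Int.lt_floor_add_one X
  obtain ⟨A, hA⟩ : ∃ A : ℤ, A = ⌊X⌋ := ⟨_, rfl⟩
  rw [← hA] at hA1 hA2
  refine ⟨h2, 2 * d - A, fun t ht1 ht2 => ?_⟩
  have e3 : 0 * g - 1 * t = -t := by ring
  have e4 : 1 * g + 0 * t = g := by ring
  simp only at ht2
  rw [e3, e4]
  have ht1R : (2 : ℝ) * d - A ≤ t := by exact_mod_cast ht1
  have ht2R : (t : ℝ) ≤ 2 * d - A + k := by exact_mod_cast ht2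
  refine ⟨h1, fun _ => ?_, fun _ => ?_⟩
  · simp only
    rw [← hX]
    push_cast
    linarith
  · simp only
    -- `β = -w ≤ k - A`
    obtain ⟨z, hz⟩ : ∃ z : ℝ, z = -(((-t : ℤ) : ℝ) + 2 * d) := ⟨_, rfl⟩
    have e5 : ((-t : ℤ) : ℝ) + 2 * d = -z := by rw [hz]; ring
    rw [e5]
    have hz1 : z ≤ k - A := by rw [hz]; push_cast; linarith
    have h6 : (q * P - 1) * z ≤ (q * P - 1) * (k - A) := mul_le_mul_of_nonneg_left hz1 hR.le
    have h7 : (q * P - 1) * ((k : ℝ) + 1) ≤ (q * P - 1) * (M - N * g) :=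
      mul_le_mul_of_nonneg_left h5 hR.le
    have h8 : (q * P - 1) * (X - A) ≤ (q * P - 1) * 1 :=
      mul_le_mul_of_nonneg_left (by linarith) hR.le
    have h9 : (q * P - 1) * z ≤ X - P := by
      have e6 : (q * P - 1) * ((k : ℝ) - A) = (q * P - 1) * ((k : ℝ) + 1) + (q * P - 1) * (X - A) -
        (q * P - 1) * X - (q * P - 1) * 1 := by ring
      rw [e6] at h6
      linarith
    have e7 : ((g : ℝ) - q * -z + 1) * P = P * g + ((q * P - 1) * z + z) + P := by ring
    rw [e7]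
    rw [hX] at h9
    linarith

theorem EmpA_F1 (h : Par q s L P N) {w : ES} {d : ℕ}
    (hE : EmpA w (F2 q L P d)) : EmpA w (F1 q L d) := by
  refine EmpA_flat 1 (-s) 1 0 (by ring) ?_ hE
  rintro ⟨c, y⟩ T k ⟨h1, h2, h3⟩ ⟨h4, h5, h6⟩ hk
  simp only at h1 h2 h3 h4 h5 h6
  have hP := h.P0
  have hkR : (k : ℝ) ≤ T := by exact_mod_cast hk
  have hyR : (0 : ℝ) ≤ y := by exact_mod_cast h1
  -- `w = u - s y`
  obtain ⟨e, he⟩ : ∃ e : ℤ, e = 1 * c + -s * y := ⟨_, rfl⟩
  have hc : c = e + s * y := by rw [he]; ring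
  -- `(y + T) P ≤ L d - w`
  have h7 : ((y : ℝ) + T) * P ≤ L * d - (e + 2 * d) := by
    have e1 : ((c - -s * T : ℤ) : ℝ) + 2 * d = e + 2 * d + s * (y + T) := by
      rw [hc]; push_cast; ring
    have e2 : ((y + 1 * T : ℤ) : ℝ) = y + T := by push_cast; ring
    rw [e1, e2] at h6
    rw [h.hP]
    linarith
  refine ⟨by simp, ?_, ?_⟩
  · intro _
    simp only
    rw [← he]
    push_cast
    have h8 : P * (k : ℝ) ≤ (y + T) * P := by
      rw [mul_comm]; exact mul_le_mul_of_nonneg_right (by linarith) hP.le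
    linarith
  · intro _
    simp only
    rw [← he]
    push_cast
    -- `y ≥ 1 - q w`
    have h9 : 1 - q * (e + 2 * d) ≤ y := by
      have e3 : q * (c + 2 * d) = q * (e + 2 * d) + 2 * y := by
        rw [hc]
        linear_combination y * h.hqs
      rw [e3] at h2
      omega
    have h9R : 1 - (q : ℝ) * (e + 2 * d) ≤ y := by exact_mod_cast h9
    have h10 : ((k : ℝ) - q * (e + 2 * d) + 1) * P ≤ (y + T) * P :=
      mul_le_mul_of_nonneg_right (by linarith) hP.le
    linarith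

theorem SurA_F1 (h : Par q s L P N) {w : SS} {d : ℕ}
    (hE : SurA w (F2 q L P d)) : SurA w (F1 q L d) := by
  refine SurA_flat 1 (-s) 1 0 (by ring) ?_ hE
  rintro ⟨e, g⟩ ⟨h1, h2, h3⟩
  simp only at h1 h2 h3
  have hP := h.P0
  have hq := h.hq
  refine ⟨h1, ?_⟩
  -- the point with parameter `t` is `(e + s t, t)`
  have main : ∀ t : ℤ, 0 ≤ t → 1 - q * (e + 2 * d) ≤ t → ((t : ℝ) * P ≤ L * d - (e + 2 * d)) →
      (1 * e - -s * t, 0 * e + 1 * t) ∈ F1 q L d := by
    intro t ht1 ht2 ht3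
    refine ⟨by simp only; omega, ?_, ?_⟩
    · simp only
      have e3 : q * (1 * e - -s * t + 2 * d) = q * (e + 2 * d) + 2 * t := by
        linear_combination t * h.hqs
      rw [e3]
      omega
    · simp only
      push_cast
      rw [h.hP] at ht3
      linarith
  rcases le_or_gt 1 (e + 2 * d) with hw | hw
  · refine ⟨0, fun t ht1 ht2 => main t ht1 ?_ ?_⟩
    · have : 1 ≤ q * (e + 2 * d) := by nlinarith
      omega
    · have h4 := h2 hw
      have h5 : (t : ℝ) ≤ g := by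
        have : t ≤ g := by simpa using ht2
        exact_mod_cast this
      have h6 : (t : ℝ) * P ≤ g * P := mul_le_mul_of_nonneg_right h5 hP.le
      linarith
  · have hw0 : e + 2 * d ≤ 0 := by omega
    have hqw : q * (e + 2 * d) ≤ 0 := mul_nonpos_of_nonneg_of_nonpos (by omega) hw0
    refine ⟨1 - q * (e + 2 * d), fun t ht1 ht2 => main t (by omega) ht1 ?_⟩
    have h4 := h3 hw0
    simp only at ht2
    have h5 : (t : ℝ) ≤ g - q * (e + 2 * d) + 1 := by
      have : (t : ℝ) ≤ 1 - q * (e + 2 * d) + g := by exact_mod_cast ht2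
      linarith
    have h6 : (t : ℝ) * P ≤ (g - q * (e + 2 * d) + 1) * P := mul_le_mul_of_nonneg_right h5 hP.le
    linarith

theorem EmpA_Tr (h : Par q s L P N) {w : ES} {d : ℕ} (hd : ¬ 3 ∣ d)
    (hE : EmpA w (F1 q L d)) :
    EmpA w (Reg (-((d : ℝ) * (1 + (4 - L)))) (d * (2 - (4 - L))) (3 * (1 + (4 - L)))
      (3 * (2 - (4 - L)))) := by
  refine EmpA_flat 1 (-6) 1 0 (by ring) ?_ hE
  rintro ⟨i, j⟩ T k ⟨h1, h2, h3⟩ ⟨h4, h5, h6⟩ hk
  simp only at h1 h2 h3 h4 h5 h6
  have hL3 := h.h3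
  have hq := h.qR
  have hLL := h.hL
  have hkR : (k : ℝ) ≤ T := by exact_mod_cast hk
  have hjR : (0 : ℝ) ≤ j := by exact_mod_cast h1
  obtain ⟨u, hu⟩ : ∃ u : ℤ, u = 1 * i + -6 * j + 2 * d := ⟨_, rfl⟩
  have huR : (i : ℝ) = u + 6 * j - 2 * d := by rw [hu]; push_cast; ring
  obtain ⟨D, hD⟩ : ∃ D : ℤ, D = d - 3 * j := ⟨_, rfl⟩
  have hD0 : D ≠ 0 := by
    intro h0
    apply hd
    have : ((3 : ℕ) : ℤ) ∣ (d : ℤ) := ⟨j, by push_cast; omega⟩
    exact_mod_cast this
  have hDR : (D : ℝ) = d - 3 * j := by rw [hD]; push_cast; ring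
  have h7 : (L - 3) * D ≤ u := by rw [hDR]; linarith
  have h8 : (u : ℝ) ≤ L * (D - 3 * T) := by
    rw [hDR]; push_cast at h6; linarith
  -- `T < q u`
  have h9 : T < q * u := by
    have h10 : (T : ℝ) ≤ q * u := by
      -- multiply by `3`
      have h11 : (q : ℝ) * L * ((L - 3) * D) ≤ q * L * u :=
        mul_le_mul_of_nonneg_left h7 (by positivity)
      have h12 : (q : ℝ) * (L - 3) * u ≤ q * (L - 3) * (L * (D - 3 * T)) :=
        mul_le_mul_of_nonneg_left h8 (mul_nonneg (by linarith) (by linarith))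
      have e1 : (q : ℝ) * L * ((L - 3) * D) = D := by
        calc (q : ℝ) * L * ((L - 3) * D) = (q * L * (L - 3)) * D := by ring
          _ = D := by rw [hLL, one_mul]
      have e2 : (q : ℝ) * (L - 3) * (L * (D - 3 * T)) = D - 3 * T := by
        calc (q : ℝ) * (L - 3) * (L * (D - 3 * T)) = (q * L * (L - 3)) * (D - 3 * T) := by ring
          _ = D - 3 * T := by rw [hLL, one_mul]
      rw [e1] at h11
      rw [e2] at h12
      linarith
    have h10' : T ≤ q * u := by exact_mod_cast h10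
    rcases h10'.lt_or_eq with h13 | h13
    · exact h13
    · exfalso
      have h11 : (q : ℝ) * L * ((L - 3) * D) ≤ q * L * u :=
        mul_le_mul_of_nonneg_left h7 (by positivity)
      have h12 : (q : ℝ) * (L - 3) * u ≤ q * (L - 3) * (L * (D - 3 * T)) :=
        mul_le_mul_of_nonneg_left h8 (mul_nonneg (by linarith) (by linarith))
      have e1 : (q : ℝ) * L * ((L - 3) * D) = D := by
        calc (q : ℝ) * L * ((L - 3) * D) = (q * L * (L - 3)) * D := by ring
          _ = D := by rw [hLL, one_mul]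
      have e2 : (q : ℝ) * (L - 3) * (L * (D - 3 * T)) = D - 3 * T := by
        calc (q : ℝ) * (L - 3) * (L * (D - 3 * T)) = (q * L * (L - 3)) * (D - 3 * T) := by ring
          _ = D - 3 * T := by rw [hLL, one_mul]
      rw [e1] at h11
      rw [e2] at h12
      have h13R : (T : ℝ) = q * u := by exact_mod_cast h13
      have h14 : (q : ℝ) * L * u = D := by linarith
      rcases eq_or_ne (q * u) 0 with hqu | hqu
      · have : (q : ℝ) * u = 0 := by exact_mod_cast hqu
        have h15 : (D : ℝ) = 0 := by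
          rw [← h14]
          calc (q : ℝ) * L * u = L * (q * u) := by ring
            _ = 0 := by rw [this, mul_zero]
        exact hD0 (by exact_mod_cast h15)
      · apply h.hirr
        refine ⟨(D : ℚ) / ((q * u : ℤ) : ℚ), ?_⟩
        push_cast
        have hne : (q : ℝ) * u ≠ 0 := by exact_mod_cast hqu
        rw [div_eq_iff hne]
        linarith
  refine ⟨by simp, ?_, ?_⟩
  · simp only
    rw [← hu]
    omega
  · simp only
    have e3 : ((1 * i + -6 * j : ℤ) : ℝ) + 2 * d = u := by rw [hu]; push_cast; ring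
    rw [e3]
    push_cast
    have h15 : L * (D - 3 * T) ≤ L * (d - 3 * k) :=
      mul_le_mul_of_nonneg_left (by rw [hDR]; linarith) (by linarith)
    linarith

theorem SurA_Tr (h : Par q s L P N) {w : SS} {d : ℕ}
    (hE : SurA w (F1 q L d)) :
    SurA w (Reg (-((d : ℝ) * (1 + (4 - L)))) (d * (2 - (4 - L))) (3 * (1 + (4 - L)))
      (3 * (2 - (4 - L)))) := by
  refine SurA_flat 1 (-6) 1 0 (by ring) ?_ hE
  rintro ⟨c, y⟩ ⟨h1, h2, h3⟩
  simp only at h1 h2 h3
  have hL3 := h.h3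
  have hq := h.qR
  have hLL := h.hL
  refine ⟨h1, ?_⟩
  obtain ⟨u, hu⟩ : ∃ u : ℤ, u = c + 2 * d := ⟨_, rfl⟩
  rw [← hu] at h2
  have huR : (c : ℝ) + 2 * d = u := by rw [hu]; push_cast; ring
  rw [huR] at h3
  -- `Z = (d - u / L) / 3`
  obtain ⟨Z, hZ⟩ : ∃ Z : ℝ, Z = (d - (q * (L - 3)) * u) / 3 := ⟨_, rfl⟩
  have hA1 := Int.floor_le Z
  have hA2 := Int.lt_floor_add_one Z
  obtain ⟨A, hA⟩ : ∃ A : ℤ, A = ⌊Z⌋ := ⟨_, rfl⟩
  have hyZ : (y : ℝ) ≤ Z := by
    have h4 : (q : ℝ) * (L - 3) * u ≤ q * (L - 3) * (L * (d - 3 * y)) :=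
      mul_le_mul_of_nonneg_left h3 (mul_nonneg (by linarith) (by linarith))
    have e2 : (q : ℝ) * (L - 3) * (L * (d - 3 * y)) = d - 3 * y := by
      calc (q : ℝ) * (L - 3) * (L * (d - 3 * y)) = (q * L * (L - 3)) * (d - 3 * y) := by ring
        _ = d - 3 * y := by rw [hLL, one_mul]
    rw [e2] at h4
    rw [hZ]
    linarith
  have hyA : y ≤ A := by rw [hA]; exact Int.le_floor.2 hyZ
  rw [← hA] at hA1 hA2
  refine ⟨A - y, fun t ht1 ht2 => ?_⟩
  simp only at ht2
  have ht1R : (A : ℝ) - y ≤ t := by exact_mod_cast ht1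
  have ht2R : (t : ℝ) ≤ A := by
    have : t ≤ A := by omega
    exact_mod_cast this
  have hyq : (y : ℝ) + 1 ≤ q * u := by exact_mod_cast h2
  refine ⟨by simp only; omega, ?_, ?_⟩
  · simp only
    push_cast
    -- `(L - 3) (d - 3 t) ≤ u`
    have h5 : (d : ℝ) - 3 * t ≤ q * L * u := by
      have h6 : Z - q * u ≤ t := by linarith
      rw [hZ] at h6
      linarith
    have h7 : (L - 3) * ((d : ℝ) - 3 * t) ≤ (L - 3) * (q * L * u) :=
      mul_le_mul_of_nonneg_left h5 (by linarith)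
    have e3 : (L - 3) * (q * L * u) = u := by
      calc (L - 3) * (q * L * u) = (q * L * (L - 3)) * u := by ring
        _ = u := by rw [hLL, one_mul]
    rw [e3] at h7
    linarith
  · simp only
    push_cast
    have h5 : (q : ℝ) * (L - 3) * u ≤ d - 3 * t := by
      have h6 : (t : ℝ) ≤ Z := by linarith
      rw [hZ] at h6
      linarith
    have h7 : L * (q * (L - 3) * u) ≤ L * (d - 3 * t) :=
      mul_le_mul_of_nonneg_left h5 (by linarith)
    have e3 : L * (q * (L - 3) * u) = u := by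
      calc L * (q * (L - 3) * u) = (q * L * (L - 3)) * u := by ring
        _ = u := by rw [hLL, one_mul]
    rw [e3] at h7
    linarith

theorem empAt_ex {q s : ℤ} (h : Par q s (LL N) (√(N : ℝ) * LL N) N) {d : ℕ} (hd : ¬ 3 ∣ d)
    (hdm : √(N : ℝ) * (2 * d + 3) < N * (2 * m + 1)) : EmpAt N m d := by
  have h3 := h.h3
  have h4 := h.h4
  refine EmpAt.of (keyE N m d (4 - LL N) (by linarith) (by linarith)
    (EmpA_Tr h hd (EmpA_F1 h (EmpA_F2 h ((cond_iff h _ _).2 ?_)))))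
  push_cast
  linarith

theorem indAt_ex {q s : ℤ} (h : Par q s (LL N) (√(N : ℝ) * LL N) N) {d : ℕ}
    (hdm : N * (2 * m + 1) ≤ √(N : ℝ) * (2 * d + 3)) : IndAt N m d := by
  have h3 := h.h3
  have h4 := h.h4
  have hirr : Irrational (4 - LL N) := by
    have := h.hirr.natCast_sub 4
    push_cast at this
    exact this
  refine IndAt.of (keyS N m d (4 - LL N) (by linarith) (by linarith) hirr
    (SurA_Tr h (SurA_F1 h (SurA_F2 h ?_))))
  have h5 := (not_congr (cond_iff h d ((N * m : ℕ) : ℝ))).2 (not_lt.2 (by push_cast; linarith))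
  exact not_lt.1 h5

/-- **General collisions of eleven and of thirteen points.** -/
theorem coll_exact {r : ℕ} (hr : r = 11 ∨ r = 13) (m : ℕ) (L : Type u) [Field L] [CharZero L] :
    ∃ F : MvPolynomial (Fin (r + 1)) L, F ≠ 0 ∧
      ∀ (c : L) (a : Fin r → L), MvPolynomial.eval (Fin.cons c a : Fin (r + 1) → L) F ≠ 0 →
        ∀ d : ℕ, ¬ 3 ∣ d ∨ (d : ℝ) < √(r : ℝ) * m ∨ √(r : ℝ) * (2 * m + 1) ≤ 2 * d + 3 →
          Pool.Agent.H932R3.JetDim r m c a d := by
  have hp : ∃ q s : ℤ, Par q s (LL r) (√(r : ℝ) * LL r) r := by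
    rcases hr with rfl | rfl
    · exact ⟨2, 1, par_of (by norm_num) (by norm_num) (by norm_num) (by norm_num) (by norm_num)⟩
    · exact ⟨1, 2, par_of (by norm_num) (by norm_num) (by norm_num) (by norm_num) (by norm_num)⟩
  obtain ⟨q, s, hp⟩ := hp
  have hr10 : 10 ≤ r := by omega
  have hrR : (10 : ℝ) ≤ r := by exact_mod_cast hr10
  obtain ⟨t, ht⟩ : ∃ t, t = √(r : ℝ) := ⟨_, rfl⟩
  have htt : t * t = r := by rw [ht]; exact Real.mul_self_sqrt (by linarith)
  have ht3 : 3 ≤ t := by rw [ht]; exact Real.le_sqrt_of_sq_le (by norm_num; linarith)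
  have ht0 : 0 < t := by linarith
  obtain ⟨PL, hPL⟩ : ∃ PL : ℕ → Prop, PL = fun d : ℕ => (d : ℝ) < √(r : ℝ) * m ∨
      (¬ 3 ∣ d ∧ 2 * (d : ℝ) + 3 < √(r : ℝ) * (2 * m + 1)) := ⟨_, rfl⟩
  obtain ⟨PH, hPH⟩ : ∃ PH : ℕ → Prop, PH = fun d : ℕ => √(r : ℝ) * (2 * m + 1) ≤ 2 * (d : ℝ) + 3 :=
    ⟨_, rfl⟩
  have k1 : ∃ N : ℕ, ∀ d, PL d → d ≤ N := by
    refine ⟨⌈√(r : ℝ) * (2 * m + 1)⌉₊, fun d hd => ?_⟩
    rw [hPL] at hd
    beta_reduce at hd
    rw [← ht] at hd ⊢
    have h0 : 0 ≤ t * m := by positivity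
    have h2 : (d : ℝ) ≤ t * (2 * m + 1) := by
      have h3 : (0 : ℝ) ≤ d := Nat.cast_nonneg d
      have e : t * (2 * (m : ℝ) + 1) = 2 * (t * m) + t := by ring
      rcases hd with hd | ⟨_, hd⟩
      · linarith
      · linarith
    have := h2.trans (Nat.le_ceil _)
    exact_mod_cast this
  have k2 : ∀ d, PL d → EmpAt r m d := by
    intro d hd
    rw [hPL] at hd
    rcases hd with hd | ⟨hd3, hd⟩
    · exact empAt_nagata (by omega) (by rw [mul_comm]; exact hd)
    · refine empAt_ex hp hd3 ?_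
      rw [← ht] at hd ⊢
      have h1 := mul_lt_mul_of_pos_left hd ht0
      have e2 : t * (t * (2 * (m : ℝ) + 1)) = r * (2 * m + 1) := by rw [← mul_assoc, htt]
      rwa [e2] at h1
  have k3 : ∀ d, PH d → IndAt r m d := by
    intro d hd
    rw [hPH] at hd
    refine indAt_ex hp ?_
    rw [← ht] at hd ⊢
    have h1 := mul_le_mul_of_nonneg_left hd ht0.le
    have e2 : t * (t * (2 * (m : ℝ) + 1)) = r * (2 * m + 1) := by rw [← mul_assoc, htt]
    rwa [e2] at h1
  obtain ⟨F, hF, hF'⟩ := coll_wrap (r := r) (m := m) (by omega) k1 k2 k3 L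
  refine ⟨F, hF, fun c a hc d hd => hF' c a hc d ?_⟩
  rw [hPL, hPH]
  rcases hd with hd | hd | hd
  · rcases lt_or_ge (2 * (d : ℝ) + 3) (√(r : ℝ) * (2 * m + 1)) with h1 | h1
    · exact Or.inl (Or.inr ⟨hd, h1⟩)
    · exact Or.inr h1
  · exact Or.inl (Or.inl hd)
  · exact Or.inr hd

end Pool.Agent.TH183.QS
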