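import Pool.Agent.TH183.QS.Plane
import Pool.Agent.TH183.QC.Fin
import Pool.Agent.TH885.NW.Asm

/-! Emptiness and independence in the plane for all large numbers, with a loss in the degree as small as
we please, for the abstract systems (follows `Pool.Agent.TH885.NW.Asm`). -/

namespace Pool.Agent.TH183.QS

open Finset Pool.Agent.TH176.Nag Pool.Agent.TH603.Sur Pool.Agent.TH183.QC
open Pool.Agent.TH183.QN (TT)
open Pool.Agent.TH885.NW (second_const)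

/-- independence in degree `d` at all large numbers of points -/
theorem SurA_large {ε : ℝ} (hε : 0 < ε) : ∃ N0 : ℕ, 1 ≤ N0 ∧ ∀ n : ℕ, N0 ≤ n →
    ∀ (w : SS), KeyS w → ∀ (W : ℕ), SurA w (Op (W : ℝ) (n : ℝ)) → ∀ d : ℕ,
    ((W : ℝ) + (n : ℝ) / 2) / √(n : ℝ) + ε ≤ d + 3 / 2 → SurA w (TT d) := by
  obtain ⟨C, hC⟩ : ∃ C : ℝ, C = 10 := ⟨_, rfl⟩
  obtain ⟨t0, ht0, hsq⟩ := SurA_cut (D := 1) le_rfl hε
  obtain ⟨P, hP⟩ : ∃ P : ℕ, P = ⌈C / ε⌉₊ + 2 := ⟨_, rfl⟩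
  have hP2 : 2 ≤ P := by omega
  have hPε : C ≤ P * ε := by
    have h1 := Nat.le_ceil (C / ε)
    have h2 : (⌈C / ε⌉₊ : ℝ) ≤ P := by exact_mod_cast (by omega : ⌈C / ε⌉₊ ≤ P)
    rw [← div_le_iff₀ hε]
    linarith
  obtain ⟨N1, hN1⟩ := Pool.Agent.TH73.NW.exists_param P hP2
  refine ⟨max (max (t0 ^ 2) N1) (⌈(4 * (P : ℝ) ^ 2 / ε) ^ 2⌉₊ + 1), ?_, fun n hn w key W h0 d hlt => ?_⟩
  · exact le_max_of_le_right (by omega)
  have hn1 : t0 ^ 2 ≤ n := ((le_max_left _ _).trans (le_max_left _ _)).trans hn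
  have hn2 : N1 ≤ n := ((le_max_right _ _).trans (le_max_left _ _)).trans hn
  have hn3 : ⌈(4 * (P : ℝ) ^ 2 / ε) ^ 2⌉₊ + 1 ≤ n := (le_max_right _ _).trans hn
  by_cases hs : IsSquare n
  · obtain ⟨t, ht⟩ := hs
    have ht' : n = 1 * t ^ 2 := by rw [ht]; ring
    have ht2 : t0 ≤ t := by
      by_contra hcon
      have h1 : t < t0 := not_le.1 hcon
      have h2 : t ^ 2 < t0 ^ 2 := Nat.pow_lt_pow_left h1 (by norm_num)
      rw [ht'] at hn1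
      omega
    subst ht'
    exact hsq t ht2 w W h0 d hlt
  obtain ⟨K, δ, y, hK, hδ0, hδ, hy, hirr⟩ := hN1 n hn2 hs
  obtain ⟨hK1, hK2, hx⟩ := second_const hP2 hK hδ0 hδ hy
  have hP' : (2 : ℝ) ≤ P := by exact_mod_cast hP2
  have hK0 : 0 < K := by linarith
  have hn0 : (0 : ℝ) < n := by exact_mod_cast (by omega : 0 < n)
  have hr0 : 0 < √(n : ℝ) := Real.sqrt_pos.2 hn0
  have hrr : √(n : ℝ) * √(n : ℝ) = n := Real.mul_self_sqrt hn0.le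
  have hrn : 4 * (P : ℝ) ^ 2 / ε ≤ √(n : ℝ) := by
    apply Real.le_sqrt_of_sq_le
    have h1 := Nat.le_ceil ((4 * (P : ℝ) ^ 2 / ε) ^ 2)
    have h0 : ⌈(4 * (P : ℝ) ^ 2 / ε) ^ 2⌉₊ ≤ n := by omega
    have h2 : ((⌈(4 * (P : ℝ) ^ 2 / ε) ^ 2⌉₊ : ℕ) : ℝ) ≤ n := Nat.cast_le.2 h0
    linarith
  rw [div_le_iff₀ hε] at hrn
  obtain ⟨r, hr⟩ : ∃ r : ℝ, r = K / 3 := ⟨_, rfl⟩
  obtain ⟨ν, hν⟩ : ∃ ν : ℝ, ν = K ^ 2 / 9 := ⟨_, rfl⟩
  have hνr : ν = r ^ 2 := by rw [hν, hr]; ring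
  rw [← hν] at hy hx
  rw [← hr] at hx
  have hrpos : 0 < r := by rw [hr]; positivity
  have hν0 : 0 < ν := by rw [hνr]; positivity
  have hrP : 2 * (P : ℝ) ≤ r := by rw [hr]; linarith
  have hνP : ν ≤ 9 * (P : ℝ) ^ 2 := by
    rw [hν]
    have : K ^ 2 ≤ (9 * (P : ℝ)) ^ 2 := by gcongr
    linarith
  -- the sizes
  obtain ⟨Z, hZ⟩ : ∃ Z : ℝ, Z = ((W + (n : ℝ) / 2) + ν / 8) * (r / √(n : ℝ)) - ν / 2 := ⟨_, rfl⟩
  have h2 : SurA w (Op Z ν) := by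
    refine move_S (k := 1) (y := y) (n' := n) (Z' := W) hν0 (by rw [Nat.cast_one]; exact isCoprime_one_left) one_pos ?_ ?_ h0
    · rw [Nat.cast_one, mul_one]
      exact hy.symm
    · rw [Nat.cast_one, mul_one, hx, hZ]
      have : √(n : ℝ) * r * ((W + (n : ℝ) / 2 + ν / 8) * (r / √(n : ℝ)) - ν / 2 + ν / 2) =
          (W + (n : ℝ) / 2 + ν / 8) * r ^ 2 := by
        have h3 : r / √(n : ℝ) * √(n : ℝ) = r := div_mul_cancel₀ _ hr0.ne'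
        linear_combination (W + (n : ℝ) / 2 + ν / 8) * r * h3
      rw [this, ← hνr]
      apply le_of_eq
      ring
  rw [hν] at h2
  refine firstS key P hP2 K δ hK hδ0 hδ hirr d Z ?_ h2
  rw [← hC]
  have e1 : Z + K ^ 2 / 18 = r * ((W + (n : ℝ) / 2) / √(n : ℝ) + ν / 8 / √(n : ℝ)) := by
    rw [hZ]
    have : K ^ 2 / 18 = ν / 2 := by rw [hν]; ring
    rw [this]
    ring
  have e2 : ν / 8 / √(n : ℝ) ≤ ε / 2 := by
    rw [div_le_iff₀ hr0]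
    nlinarith
  rw [e1, ← hr]
  have e3 : (W + (n : ℝ) / 2) / √(n : ℝ) + ν / 8 / √(n : ℝ) ≤ d + 3 / 2 - ε / 2 := by linarith
  have e4 := mul_le_mul_of_nonneg_left e3 hrpos.le
  have e5 : C ≤ r * (ε / 2) := by nlinarith
  linarith

/-- emptiness in degree `d` at all large numbers of points -/
theorem EmpA_large {ε : ℝ} (hε : 0 < ε) : ∃ N0 : ℕ, 1 ≤ N0 ∧ ∀ n : ℕ, N0 ≤ n →
    ∀ (w : ES), KeyE w → ∀ (W : ℕ), EmpA w (Cl (W : ℝ) (n : ℝ)) → ∀ d : ℕ,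
    (n : ℝ) * ((n : ℝ) / 2 + 2) ≤ (W : ℝ) →
    (d : ℝ) + 3 / 2 + ε ≤ ((W : ℝ) + (n : ℝ) / 2) / √(n : ℝ) → EmpA w (TT d) := by
  obtain ⟨C, hC⟩ : ∃ C : ℝ, C = 10 := ⟨_, rfl⟩
  obtain ⟨t0, ht0, hsq⟩ := EmpA_cut (D := 1) le_rfl hε
  obtain ⟨P, hP⟩ : ∃ P : ℕ, P = ⌈C / ε⌉₊ + 2 := ⟨_, rfl⟩
  have hP2 : 2 ≤ P := by omega
  have hPε : C ≤ P * ε := by
    have h1 := Nat.le_ceil (C / ε)
    have h2 : (⌈C / ε⌉₊ : ℝ) ≤ P := by exact_mod_cast (by omega : ⌈C / ε⌉₊ ≤ P)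
    rw [← div_le_iff₀ hε]
    linarith
  obtain ⟨N1, hN1⟩ := Pool.Agent.TH73.NW.exists_param P hP2
  obtain ⟨d0, hd0⟩ := firstE P hP2
  refine ⟨max (max (max (t0 ^ 2) N1) (⌈((9 * (P : ℝ) ^ 2 / 8 + 2) * 2 / ε) ^ 2⌉₊ + 1))
    (⌈((d0 : ℝ) + 3 / 2 + ε + 2) ^ 2⌉₊ + 1), ?_, fun n hn w key W h0 d hw hd => ?_⟩
  · exact le_max_of_le_right (by omega)
  have hn1 : t0 ^ 2 ≤ n := (((le_max_left _ _).trans (le_max_left _ _)).trans (le_max_left _ _)).trans hn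
  have hn2 : N1 ≤ n := (((le_max_right _ _).trans (le_max_left _ _)).trans (le_max_left _ _)).trans hn
  have hn3 : ⌈((9 * (P : ℝ) ^ 2 / 8 + 2) * 2 / ε) ^ 2⌉₊ + 1 ≤ n :=
    ((le_max_right _ _).trans (le_max_left _ _)).trans hn
  have hn4 : ⌈((d0 : ℝ) + 3 / 2 + ε + 2) ^ 2⌉₊ + 1 ≤ n := (le_max_right _ _).trans hn
  by_cases hs : IsSquare n
  · obtain ⟨t, ht⟩ := hs
    have ht' : n = 1 * t ^ 2 := by rw [ht]; ring
    have ht2 : t0 ≤ t := by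
      by_contra hcon
      have h1 : t < t0 := not_le.1 hcon
      have h2 : t ^ 2 < t0 ^ 2 := Nat.pow_lt_pow_left h1 (by norm_num)
      rw [ht'] at hn1
      omega
    subst ht'
    exact hsq t ht2 w W h0 d hw hd
  obtain ⟨K, δ, y, hK, hδ0, hδ, hy, hirr⟩ := hN1 n hn2 hs
  obtain ⟨hK1, hK2, hx⟩ := second_const hP2 hK hδ0 hδ hy
  have hP' : (2 : ℝ) ≤ P := by exact_mod_cast hP2
  have hK0 : 0 < K := by linarith
  have hn0 : (0 : ℝ) < n := by exact_mod_cast (by omega : 0 < n)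
  have hr0 : 0 < √(n : ℝ) := Real.sqrt_pos.2 hn0
  have hrr : √(n : ℝ) * √(n : ℝ) = n := Real.mul_self_sqrt hn0.le
  have hrn : (9 * (P : ℝ) ^ 2 / 8 + 2) * 2 / ε ≤ √(n : ℝ) := by
    apply Real.le_sqrt_of_sq_le
    have h1 := Nat.le_ceil (((9 * (P : ℝ) ^ 2 / 8 + 2) * 2 / ε) ^ 2)
    have h0 : ⌈((9 * (P : ℝ) ^ 2 / 8 + 2) * 2 / ε) ^ 2⌉₊ ≤ n := by omega
    have h2 : ((⌈((9 * (P : ℝ) ^ 2 / 8 + 2) * 2 / ε) ^ 2⌉₊ : ℕ) : ℝ) ≤ n := Nat.cast_le.2 h0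
    linarith
  rw [div_le_iff₀ hε] at hrn
  have hrd : (d0 : ℝ) + 3 / 2 + ε + 2 ≤ √(n : ℝ) := by
    apply Real.le_sqrt_of_sq_le
    have h1 := Nat.le_ceil (((d0 : ℝ) + 3 / 2 + ε + 2) ^ 2)
    have h0 : ⌈((d0 : ℝ) + 3 / 2 + ε + 2) ^ 2⌉₊ ≤ n := by omega
    have h2 : ((⌈((d0 : ℝ) + 3 / 2 + ε + 2) ^ 2⌉₊ : ℕ) : ℝ) ≤ n := Nat.cast_le.2 h0
    linarith
  have hd00 : (0 : ℝ) ≤ d0 := Nat.cast_nonneg d0
  have hr2 : 2 ≤ √(n : ℝ) := by linarith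
  have hn4R : (4 : ℝ) ≤ n := by nlinarith
  obtain ⟨r, hr⟩ : ∃ r : ℝ, r = K / 3 := ⟨_, rfl⟩
  obtain ⟨ν, hν⟩ : ∃ ν : ℝ, ν = K ^ 2 / 9 := ⟨_, rfl⟩
  have hνr : ν = r ^ 2 := by rw [hν, hr]; ring
  rw [← hν] at hy hx
  rw [← hr] at hx
  have hrpos : 0 < r := by rw [hr]; positivity
  have hν0 : 0 < ν := by rw [hνr]; positivity
  have hrP : 2 * (P : ℝ) ≤ r := by rw [hr]; linarith
  have hνP : ν ≤ 9 * (P : ℝ) ^ 2 := by
    rw [hν]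
    have : K ^ 2 ≤ (9 * (P : ℝ)) ^ 2 := by gcongr
    linarith
  -- the degree
  obtain ⟨d', hd'⟩ : ∃ d' : ℕ, d' = max d d0 := ⟨_, rfl⟩
  have hdd' : d ≤ d' := hd' ▸ le_max_left _ _
  have hd0d : d0 ≤ d' := hd' ▸ le_max_right _ _
  obtain ⟨σ, hσ⟩ : ∃ σ : ℝ, σ = (W + (n : ℝ) / 2) / √(n : ℝ) := ⟨_, rfl⟩
  have hσ1 : σ * √(n : ℝ) = W + (n : ℝ) / 2 := by rw [hσ]; exact div_mul_cancel₀ _ hr0.ne'
  have hd2 : (d' : ℝ) + 3 / 2 + ε ≤ σ := by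
    rcases max_choice d d0 with h2 | h2
    · rw [hd', h2, hσ]; exact hd
    · rw [hd', h2, hσ, le_div_iff₀ hr0]
      have h3 : ((d0 : ℝ) + 3 / 2 + ε) * √(n : ℝ) ≤ √(n : ℝ) * √(n : ℝ) :=
        mul_le_mul_of_nonneg_right (by linarith) hr0.le
      rw [hrr] at h3
      nlinarith
  obtain ⟨Z, hZ⟩ : ∃ Z : ℝ, Z = r * (σ - ε / 2) - ν / 2 := ⟨_, rfl⟩
  have hZν : Z + ν / 2 = r * (σ - ε / 2) := by rw [hZ]; ring
  obtain ⟨x, hxdef⟩ : ∃ x : ℝ, x = ν + y := ⟨_, rfl⟩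
  have hx0 : 0 < x := by
    rw [hxdef]
    have : (0 : ℝ) ≤ y := Nat.cast_nonneg y
    linarith
  have hνx : ν ≤ x := by
    rw [hxdef]
    have : (0 : ℝ) ≤ y := Nat.cast_nonneg y
    linarith
  have hxr : x = √(n : ℝ) * r := by rw [hxdef]; exact hx
  have h1 : EmpA w (Cl Z ν) := by
    refine move_E (k := 1) (y := y) (n' := n) (Z' := W) hν0 (by rw [Nat.cast_one]; exact isCoprime_one_left) one_pos ?_ ?_ ?_ ?_ ?_
    · rw [Nat.cast_one, mul_one]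
      exact hy.symm
    · linarith
    · rw [Nat.cast_one, mul_one, ← hxdef, hxr, hZν]
      have e1 : √(n : ℝ) * r * (r * (σ - ε / 2)) = ν * (σ * √(n : ℝ) - √(n : ℝ) * (ε / 2)) := by
        rw [hνr]; ring
      rw [e1, hσ1]
      have e2 : ν / 8 + 2 ≤ √(n : ℝ) * (ε / 2) := by nlinarith
      have e3 := mul_le_mul_of_nonneg_left e2 hν0.le
      nlinarith
    · intro j hj1 hj2
      rw [Nat.cast_one, mul_one, ← hxdef] at hj1 hj2 ⊢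
      obtain ⟨κ, hκ⟩ : ∃ κ : ℝ, κ = (Z - x * j + ν / 2) / x := ⟨_, rfl⟩
      have hκ1 : Z - x * j + ν / 2 = x * κ := by
        rw [hκ, mul_div_cancel₀ _ hx0.ne']
      have hsz : (n : ℝ) * (j + κ) = σ * √(n : ℝ) - √(n : ℝ) * (ε / 2) := by
        have h2 : r * (σ - ε / 2) = x * (j + κ) := by rw [← hZν]; linarith
        rw [hxr] at h2
        have h3 : r * (σ - ε / 2) = r * (√(n : ℝ) * (j + κ)) := by rw [h2]; ring
        have h4 := mul_left_cancel₀ hrpos.ne' h3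
        calc (n : ℝ) * (j + κ) = √(n : ℝ) * (√(n : ℝ) * (j + κ)) := by rw [← mul_assoc, hrr]
          _ = √(n : ℝ) * (σ - ε / 2) := by rw [← h4]
          _ = σ * √(n : ℝ) - √(n : ℝ) * (ε / 2) := by ring
      refine top_last (κ := κ) (δ := ε / 2) hn0 hν0 hx0 ?_ hκ1 ?_ ?_ ?_ ?_ ?_ hw
      · rw [hxdef]; rw [hy]; ring
      · rw [hκ]
        apply div_nonneg _ hx0.le
        linarith
      · rw [hκ, div_le_iff₀ hx0]
        linarith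
      · rw [hsz, hσ1]
        have : 0 ≤ √(n : ℝ) * (ε / 2) := by positivity
        linarith
      · rw [hsz, hσ1]
        have : 0 < √(n : ℝ) * (ε / 2) := by positivity
        linarith
      · linarith
    · exact h0
  rw [hν] at h1
  have h2 : EmpA w (TT d') := by
    refine hd0 K δ hK hδ0 hδ w key d' Z hd0d ?_ h1
    rw [← hC]
    have : K ^ 2 / 18 = ν / 2 := by rw [hν]; ring
    rw [this, hZν, ← hr]
    have e5 : C ≤ r * (ε / 2) := by nlinarith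
    have e6 : r * ((d' : ℝ) + 3 / 2 + ε) ≤ r * σ := mul_le_mul_of_nonneg_left hd2 hrpos.le
    linarith
  refine h2.mono ?_
  rintro ⟨p, q⟩ ⟨hp, hq, hpq⟩
  exact ⟨hp, hq, hpq.trans (by exact_mod_cast hdd')⟩

end Pool.Agent.TH183.QS
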