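import Pool.Agent.TH183.QS.Win
import Pool.Agent.TH183.QS.Large

/-! General collisions for every number `r ≥ 10`: the final statements. -/

namespace Pool.Agent.TH183.QS

open Finset Pool.Agent.TH183.QI Pool.Agent.H932R2 Pool.Agent.H932R3
open Pool.Agent.TH183.QN (EmpW TT)

universe u

/-- the trivial case -/
theorem coll_triv {r m : ℕ} (hm : m = 0) (L : Type u) [Field L] [CharZero L] :
    ∃ F : MvPolynomial (Fin (r + 1)) L, F ≠ 0 ∧
      ∀ (c : L) (a : Fin r → L), MvPolynomial.eval (Fin.cons c a : Fin (r + 1) → L) F ≠ 0 →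
        ∀ d : ℕ, JetDim r m c a d := by
  subst hm
  refine ⟨1, one_ne_zero, fun c a _ d => ?_⟩
  refine jet_indep (f := 0) ?_ d (Nat.zero_le d)
  have : r * (0 + 1).choose 2 = 0 := by simp
  rw [this]
  exact ⟨fun i => i.elim0, fun i => i.elim0, fun c _ i => i.elim0⟩

/-- small multiplicities and perfect squares: the starting result on collisions -/
theorem coll_start {r m : ℕ} (hr : 10 ≤ r) (h : (m : ℝ) ≤ r - 6 * √(r : ℝ) + 11 ∨ IsSquare r)
    (L : Type u) [Field L] [CharZero L] :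
    ∃ F : MvPolynomial (Fin (r + 1)) L, F ≠ 0 ∧
      ∀ (c : L) (a : Fin r → L), MvPolynomial.eval (Fin.cons c a : Fin (r + 1) → L) F ≠ 0 →
        ∀ d : ℕ, JetDim r m c a d := by
  rcases Nat.eq_zero_or_pos m with hm | hm
  · exact coll_triv hm L
  have hcond : ∃ δ κ, Cond r m δ κ := by
    rcases h with h | ⟨s, hs⟩
    · exact cond_of_le hr h
    · refine ⟨s, 0, ?_, by rw [hs]; ring, Or.inl rfl⟩
      by_contra hcon
      have h1 : s < 2 := not_le.1 hcon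
      interval_cases s <;> omega
  exact collision_main hr hm hcond (fun k hk _ => by exact_mod_cast hk.ne')

/-- **General collisions for every `r ≥ 10`: explicit windows.** -/
theorem coll_every {r : ℕ} (hr : 10 ≤ r) (m : ℕ) (L : Type u) [Field L] [CharZero L] :
    ∃ F : MvPolynomial (Fin (r + 1)) L, F ≠ 0 ∧
      ∀ (c : L) (a : Fin r → L), MvPolynomial.eval (Fin.cons c a : Fin (r + 1) → L) F ≠ 0 →
        ∀ d : ℕ, (d : ℝ) < √(r : ℝ) * m ∨ √(r : ℝ) * (m + 1) < d + 3 ∨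
          2 * (d : ℝ) + 3 + (2 / 3 + 9 / (4 * √(r : ℝ))) < √(r : ℝ) * (2 * m + 1) ∨
          √(r : ℝ) * (2 * m + 1) + (2 / 3 + 1 / (4 * √(r : ℝ))) < 2 * d + 3 → JetDim r m c a d := by
  rcases le_or_gt (m : ℝ) (r - 6 * √(r : ℝ) + 11) with hsm | hlg
  · obtain ⟨F, hF, hF'⟩ := coll_start hr (Or.inl hsm) L
    exact ⟨F, hF, fun c a hc d _ => hF' c a hc d⟩
  have hrR : (10 : ℝ) ≤ r := by exact_mod_cast hr
  obtain ⟨s, hs⟩ : ∃ s, s = √(r : ℝ) := ⟨_, rfl⟩
  have hss : s * s = r := by rw [hs]; exact Real.mul_self_sqrt (by linarith)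
  have hs3 : 3 ≤ s := by rw [hs]; exact Real.le_sqrt_of_sq_le (by norm_num; linarith)
  have hs0 : 0 < s := by linarith
  have hsi : s * (1 / s) = 1 := by field_simp
  obtain ⟨PL, hPL⟩ : ∃ PL : ℕ → Prop, PL = fun d : ℕ => (d : ℝ) < √(r : ℝ) * m ∨
      2 * (d : ℝ) + 3 + (2 / 3 + 9 / (4 * √(r : ℝ))) < √(r : ℝ) * (2 * m + 1) := ⟨_, rfl⟩
  obtain ⟨PH, hPH⟩ : ∃ PH : ℕ → Prop, PH = fun d : ℕ => √(r : ℝ) * (m + 1) < d + 3 ∨
      √(r : ℝ) * (2 * m + 1) + (2 / 3 + 1 / (4 * √(r : ℝ))) < 2 * d + 3 := ⟨_, rfl⟩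
  have k1 : ∃ N : ℕ, ∀ d, PL d → d ≤ N := by
    refine ⟨⌈√(r : ℝ) * (2 * m + 1)⌉₊, fun d hd => ?_⟩
    rw [hPL] at hd
    beta_reduce at hd
    rw [← hs] at hd ⊢
    have h0 : 0 ≤ s * m := by positivity
    have h1 : (0 : ℝ) ≤ 9 / (4 * s) := by positivity
    have h2 : (d : ℝ) ≤ s * (2 * m + 1) := by
      have h3 : (0 : ℝ) ≤ d := Nat.cast_nonneg d
      rcases hd with hd | hd
      · have : s * (2 * (m : ℝ) + 1) = 2 * (s * m) + s := by ring
        linarith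
      · linarith
    have := h2.trans (Nat.le_ceil _)
    exact_mod_cast this
  have k2 : ∀ d, PL d → EmpAt r m d := by
    intro d hd
    rw [hPL] at hd
    rcases hd with hd | hd
    · exact empAt_nagata (by omega) (by rw [mul_comm]; exact hd)
    · refine empAt_win hr (by linarith) ?_
      rw [← hs] at hd ⊢
      have e : s * (9 / (4 * s)) = 9 / 4 := by field_simp
      have h1 := mul_lt_mul_of_pos_left hd hs0
      have e2 : s * (s * (2 * (m : ℝ) + 1)) = r * (2 * m + 1) := by rw [← mul_assoc, hss]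
      rw [e2] at h1
      have e3 : s * (2 * (d : ℝ) + 3 + (2 / 3 + 9 / (4 * s))) =
          2 * (s * (d + 3 / 2)) + 2 / 3 * s + s * (9 / (4 * s)) := by ring
      rw [e3, e] at h1
      linarith
  have k3 : ∀ d, PH d → IndAt r m d := by
    intro d hd
    rw [hPH] at hd
    rcases hd with hd | hd
    · exact indAt_plane hr hd
    · refine indAt_win hr ?_
      rw [← hs] at hd ⊢
      have e : s * (1 / (4 * s)) = 1 / 4 := by field_simp
      have h1 := mul_lt_mul_of_pos_left hd hs0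
      have e3 : s * (s * (2 * (m : ℝ) + 1) + (2 / 3 + 1 / (4 * s))) =
          r * (2 * m + 1) + 2 / 3 * s + s * (1 / (4 * s)) := by rw [← hss]; ring
      rw [e3, e] at h1
      linarith
  obtain ⟨F, hF, hF'⟩ := coll_wrap (r := r) (m := m) (by omega) k1 k2 k3 L
  refine ⟨F, hF, fun c a hc d hd => hF' c a hc d ?_⟩
  rw [hPL, hPH]
  rcases hd with hd | hd | hd | hd
  · exact Or.inl (Or.inl hd)
  · exact Or.inr (Or.inl hd)
  · exact Or.inl (Or.inr hd)
  · exact Or.inr (Or.inr hd)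

/-- **General collisions, all large `r`: all degrees but at most one.** -/
theorem coll_large {ε : ℝ} (hε : 0 < ε) : ∃ N0 : ℕ, 10 ≤ N0 ∧ ∀ r : ℕ, N0 ≤ r →
    ∀ (m : ℕ) (L : Type u) [Field L] [CharZero L],
    ∃ F : MvPolynomial (Fin (r + 1)) L, F ≠ 0 ∧
      ∀ (c : L) (a : Fin r → L), MvPolynomial.eval (Fin.cons c a : Fin (r + 1) → L) F ≠ 0 →
        ∀ d : ℕ, ε ≤ |2 * (d : ℝ) + 3 - √(r : ℝ) - 2 * (√(r : ℝ) * m)| → JetDim r m c a d := by
  obtain ⟨N1, hN1, hE⟩ := EmpA_large (half_pos hε)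
  obtain ⟨N2, hN2, hS⟩ := SurA_large (half_pos hε)
  refine ⟨max (max N1 N2) 144, le_trans (by norm_num) (le_max_right _ _), fun r hr m L _ _ => ?_⟩
  have hr1 : N1 ≤ r := ((le_max_left _ _).trans (le_max_left _ _)).trans hr
  have hr2 : N2 ≤ r := ((le_max_right _ _).trans (le_max_left _ _)).trans hr
  have hr3 : 144 ≤ r := (le_max_right _ _).trans hr
  have hrR : (144 : ℝ) ≤ r := by exact_mod_cast hr3
  have hs12 : (12 : ℝ) ≤ √(r : ℝ) := by
    apply Real.le_sqrt_of_sq_le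
    norm_num
    exact_mod_cast hr3
  have hs0 : 0 < √(r : ℝ) := by linarith
  have hss : √(r : ℝ) * √(r : ℝ) = r := Real.mul_self_sqrt (by linarith)
  rcases le_or_gt (m : ℝ) (r - 6 * √(r : ℝ) + 11) with hsm | hlg
  · obtain ⟨F, hF, hF'⟩ := coll_start (by omega) (Or.inl hsm) L
    exact ⟨F, hF, fun c a hc d _ => hF' c a hc d⟩
  have hm2 : (r : ℝ) / 2 + 2 ≤ m := by nlinarith
  have e : (((r * m : ℕ) : ℝ) + (r : ℝ) / 2) / √(r : ℝ) = (m + 1 / 2) * √(r : ℝ) := by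
    rw [div_eq_iff hs0.ne', mul_assoc, hss]
    push_cast
    ring
  obtain ⟨PL, hPL⟩ : ∃ PL : ℕ → Prop, PL = fun d : ℕ => (d : ℝ) + 3 / 2 + ε / 2 ≤ (m + 1 / 2) * √(r : ℝ) :=
    ⟨_, rfl⟩
  obtain ⟨PH, hPH⟩ : ∃ PH : ℕ → Prop, PH = fun d : ℕ => (m + 1 / 2) * √(r : ℝ) + ε / 2 ≤ d + 3 / 2 := ⟨_, rfl⟩
  have k1 : ∃ N : ℕ, ∀ d, PL d → d ≤ N := by
    refine ⟨⌈(m + 1 / 2) * √(r : ℝ)⌉₊, fun d hd => ?_⟩
    rw [hPL] at hd
    have h2 : (d : ℝ) ≤ (m + 1 / 2) * √(r : ℝ) := by linarith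
    have := h2.trans (Nat.le_ceil _)
    exact_mod_cast this
  have k2 : ∀ d, PL d → EmpAt r m d := by
    intro d hd
    rw [hPL] at hd
    refine EmpAt.of (hE r hr1 _ (keyE r m) (r * m) (es_cl r m) d ?_ ?_)
    · push_cast
      exact mul_le_mul_of_nonneg_left hm2 (by linarith)
    · rw [e]; exact hd
  have k3 : ∀ d, PH d → IndAt r m d := by
    intro d hd
    rw [hPH] at hd
    refine IndAt.of (hS r hr2 _ (keyS r m) (r * m) (ss_op r m) d ?_)
    rw [e]; exact hd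
  obtain ⟨F, hF, hF'⟩ := coll_wrap (r := r) (m := m) (by omega) k1 k2 k3 L
  refine ⟨F, hF, fun c a hc d hd => hF' c a hc d ?_⟩
  rw [hPL, hPH]
  rcases le_abs.1 hd with hd | hd
  · right; linarith
  · left; linarith

end Pool.Agent.TH183.QS
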