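import Pool.Agent.TH308.QM.KeyW
import Pool.Agent.TH183.QI.Trans
import Pool.Agent.TH387.SH.Tr
import Pool.Agent.TH183.QC.Inst
import Pool.Agent.TH183.QI.Fin

/-! The key lemma of helper603 for quasimonomial valuations with additional linear conditions (the
proof follows `Pool.Agent.TH308.QM.KeyW`), and for the abstract systems. -/

namespace Pool.Agent.TH183.QS

open Pool.Agent.TH183.QN Pool.Agent.TH603.EL Pool.Agent.TH308.QM Pool.Agent.TH183.QI
open Pool.Agent.TH183.QC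
open Pool.Agent.TH176.Nag (evL mon Reg)

section lin
variable {F : Type} [Field F]

/-- a functional on Laurent polynomials -/
noncomputable def lin (φ : ℤ × ℤ → F) : Lau F →+ F where
  toFun f := pair φ f.coeff
  map_zero' := pair_zero φ
  map_add' f g := pair_add φ f.coeff g.coeff

theorem lin_mul (φ : ℤ × ℤ → F) (c : F) (x : Lau F) : lin φ (algebraMap F (Lau F) c * x) = c * lin φ x := by
  rw [← Algebra.smul_def]
  exact pair_smul φ c x.coeff

/-- a functional applied to all coefficients -/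
noncomputable def hp (φ : ℤ × ℤ → F) (x : HR F) : HK F := x.map (lin φ)

theorem hp_coeff (φ : ℤ × ℤ → F) (x : HR F) (a : ℝ) : (hp φ x).coeff a = pair φ (x.coeff a).coeff := rfl

theorem hp_incl (φ : ℤ × ℤ → F) (c : HK F) (x : HR F) : hp φ (incl c * x) = c * hp φ x := by
  ext a
  have h1 : (c * hp φ x).coeff a = ∑ ij ∈ Finset.antidiagonal c.isPWO_support x.isPWO_support a,
      c.coeff ij.1 * (hp φ x).coeff ij.2 := by
    apply coeff_mul_both c.isPWO_support x.isPWO_support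
    · exact subset_rfl
    · intro b hb hb'
      apply hb
      show lin φ (x.coeff b) = 0
      rw [hb', map_zero]
  have h2 : (incl c * x).coeff a = ∑ ij ∈ Finset.antidiagonal c.isPWO_support x.isPWO_support a,
      (incl c).coeff ij.1 * x.coeff ij.2 := by
    apply coeff_mul_both c.isPWO_support x.isPWO_support
    · intro b hb hb'
      apply hb
      show algebraMap F (Lau F) (c.coeff b) = 0
      rw [hb', map_zero]
    · exact subset_rfl
  show lin φ ((incl c * x).coeff a) = _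
  rw [h1, h2, map_sum]
  refine Finset.sum_congr rfl fun ij _ => ?_
  show lin φ (algebraMap F (Lau F) (c.coeff ij.1) * x.coeff ij.2) = _
  rw [lin_mul]
  rfl

theorem hp_sum {κ : Type*} (φ : ℤ × ℤ → F) (s : Finset κ) (f : κ → HR F) :
    hp φ (∑ k ∈ s, f k) = ∑ k ∈ s, hp φ (f k) := by
  ext a
  show lin φ ((∑ k ∈ s, f k).coeff a) = _
  rw [HahnSeries.coeff_sum, map_sum, HahnSeries.coeff_sum]
  rfl

end lin

/-- the key lemma with additional linear conditions -/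
theorem EmpF_key {ι : Type} {n : ℕ} {t c : ι → ℝ} (ht : ∀ i, 0 ≤ t i) {d : ℕ} {τ : ℝ} (h0 : 0 < τ)
    (h1 : τ < 1)
    (h : EmpF n t c (Reg (-((d : ℝ) * (1 + τ))) (d * (2 - τ)) (3 * (1 + τ)) (3 * (2 - τ)))) :
    EmpF n t c (TT d) := by
  have h' : EmpF n t c {m : ℤ × ℤ | ((m.1 - m.2, m.2) : ℤ × ℤ) ∈
      Reg (-((d : ℝ) * (1 + τ))) (d * (2 - τ)) (3 * (1 + τ)) (3 * (2 - τ))} := by
    refine h.comap ht 1 (-1) 0 1 0 0 (by norm_num) ?_
    intro m hm
    have e : ((1 * m.1 + -1 * m.2 + 0, 0 * m.1 + 1 * m.2 + 0) : ℤ × ℤ) = (m.1 - m.2, m.2) := by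
      ext <;> simp
      ring
    rw [e]
    exact hm
  obtain ⟨F, _, _, X, Y, θ, hXY, hE⟩ := h'
  obtain ⟨s, hs⟩ : ∃ s : ℝ, s = 3 * (d : ℝ) + 4 := ⟨_, rfl⟩
  have hd : (0 : ℝ) ≤ d := Nat.cast_nonneg d
  have hs1 : 3 * (d : ℝ) + 3 < s := by rw [hs]; linarith
  have hs2 : 1 ≤ s := by rw [hs]; linarith
  have hchar : CharZero (HK F) :=
    charZero_of_injective_ringHom (f := (HahnSeries.C : F →+* HK F)) HahnSeries.C_injective
  refine ⟨HK F, inferInstance, hchar,
    fun i => vu (X i) (Y i) h0 h1 hs2 1 * (vu (X i) (Y i) h0 h1 hs2 0)⁻¹,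
    fun i => vu (X i) (Y i) h0 h1 hs2 2 * (vu (X i) (Y i) h0 h1 hs2 0)⁻¹,
    fun j m => hp (θ j) (Pool.Agent.TH603.EL.ev (tube F τ s)
      (MvPolynomial.X 0 ^ ((d : ℤ) - m.1 - m.2).toNat * MvPolynomial.X 1 ^ m.1.toNat *
        MvPolynomial.X 2 ^ m.2.toNat)),
    fun i => ld_tube (X i) (Y i) h0 h1 hs2 (hXY i), ?_⟩
  intro f hf hW hP
  by_contra hne
  have hf' : ∀ m ∈ f.support, 0 ≤ m.1 ∧ 0 ≤ m.2 ∧ m.1 + m.2 ≤ (d : ℤ) := fun m hm => hf hm
  obtain ⟨a, ha, hb⟩ := tube_lead h0 h1 (hom_isHomogeneous hf') (hom_ne_zero hf' hne) hs1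
  have h2 : ((Pool.Agent.TH603.EL.ev (tube F τ s) (hom d f)).coeff a).coeff = 0 := by
    apply hE
    · intro m hm
      have hm' : Pool.Agent.TH603.EL.cf (Pool.Agent.TH603.EL.ev (tube F τ s) (hom d f)) a m.1 m.2 ≠ 0 := by
        have := Finsupp.mem_support_iff.1 hm
        exact this
      obtain ⟨h3, h4, h5⟩ := hb m.1 m.2 hm'
      refine ⟨h3, ?_, ?_⟩
      · push_cast
        linarith
      · push_cast
        linarith
    · intro i
      apply Wt_evg
      rw [ev_hom (X i) (Y i) h0 h1 hs2 hf']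
      exact (hW i).mul_left (ht i) _
    · intro j
      have h3 := hP j
      have h4 : hp (θ j) (Pool.Agent.TH603.EL.ev (tube F τ s) (hom d f)) = 0 := by
        rw [← h3]
        unfold hom pair Finsupp.sum
        rw [map_sum, hp_sum]
        refine Finset.sum_congr rfl fun m _ => ?_
        beta_reduce
        rw [map_mul, ev_C, hp_incl]
      rw [← hp_coeff, h4, HahnSeries.coeff_zero]
  apply ha
  ext m
  rw [h2]
  rfl

/-- the key lemma for an emptiness system -/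
def KeyE (w : ES) : Prop := ∀ (d : ℕ) (τ : ℝ), 0 < τ → τ < 1 →
  EmpA w (Reg (-((d : ℝ) * (1 + τ))) (d * (2 - τ)) (3 * (1 + τ)) (3 * (2 - τ))) → EmpA w (TT d)

/-- the key lemma for an independence system -/
def KeyS (w : SS) : Prop := ∀ (d : ℕ) (τ : ℝ), 0 < τ → τ < 1 → Irrational τ →
  SurA w (Reg (-((d : ℝ) * (1 + τ))) (d * (2 - τ)) (3 * (1 + τ)) (3 * (2 - τ))) → SurA w (TT d)

theorem keyE_esW {ι : Type} {tw c : ι → ℝ} (htw : ∀ i, 0 ≤ tw i) : KeyE (esW (c := c) htw) :=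
  fun _ _ h0 h1 h => EmpW_key htw h0 h1 h

theorem keyS_ssI {ι : Type} {tw c : ι → ℝ} (htw : ∀ i, 0 ≤ tw i) {C : ℕ} :
    KeyS (ssI (C := C) (EmpF.sys (c := c) htw)) := by
  classical
  rintro d τ h0 h1 hirr ⟨T, hT, hI⟩
  obtain ⟨hf, hc⟩ := TT_ncard d
  have hfin : (Reg (-((d : ℝ) * (1 + τ))) (d * (2 - τ)) (3 * (1 + τ)) (3 * (2 - τ))).Finite :=
    (Pool.Agent.TH387.SH.TD d τ).finite_toSet.subset (Pool.Agent.TH387.SH.Reg_subset_TD (d := d) hirr)
  obtain ⟨-, h3, h4⟩ := hI.mono (EmpF.sys htw) hT hfin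
  have hcard : (Reg (-((d : ℝ) * (1 + τ))) (d * (2 - τ)) (3 * (1 + τ)) (3 * (2 - τ))).ncard ≤
      (d + 2).choose 2 := by
    refine (Set.ncard_le_ncard (Pool.Agent.TH387.SH.Reg_subset_TD (d := d) hirr)
      (Finset.finite_toSet _)).trans ?_
    rw [Set.ncard_coe_finset]
    exact Pool.Agent.TH387.SH.card_TD d τ
  refine ⟨TT d, subset_rfl, hf, ?_, ?_⟩
  · rw [hc]
    exact h3.trans hcard
  · rw [hc]
    exact (EmpF_key htw h0 h1 h4).le (by omega)

end Pool.Agent.TH183.QS
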