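import Pool.Agent.TH183.QS.Flat
import Pool.Agent.TH183.QS.Key
import Pool.Agent.TH641.NW.First
import Pool.Agent.TH641.NW.Plane

/-! From the exact rows to the plane, for the abstract systems (follows `Pool.Agent.TH641.NW.Plane` and
`Pool.Agent.TH641.NW.First`; the lemmas about rows are used from there). -/

namespace Pool.Agent.TH183.QS

open Finset Pool.Agent.TH176.Nag Pool.Agent.TH603.Sur Pool.Agent.TH183.QC
open Pool.Agent.TH183.QN (TT)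
open Pool.Agent.TH641.NW (U ell Lam NN up_top U_empty exists_tau ell_row row_low_rot row_up_rot K_bounds)

theorem EmpA_pl {w : ES} (key : KeyE w) {K : ℝ} {d : ℕ} (hK : 0 ≤ K) {n' Z' : ℝ} {σ : ℕ}
    (hσ : (σ : ℝ) + 1 ≤ n') {J : ℕ} {ρ : ℕ → ℝ}
    (hcard : ∀ (x : ℝ) (j : ℕ) (B : Finset ℤ), (∀ c ∈ B, c ∈ U x (3 * d - K * j) K) → (B.card : ℝ) ≤ ρ j)
    (h1 : ∀ j < J, ρ j ≤ Z' - (n' - σ) - n' * j) (h2 : ρ J + σ * J ≤ Z')
    (h3 : ∀ j, J < j → ρ j < 1) (h : EmpA w (Cl Z' n')) : EmpA w (TT d) := by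
  obtain ⟨v, τ, α, h4, h5, -, h6⟩ := exists_tau K d
  refine key d τ h4 h5 ?_
  rw [h6]
  exact EmpA_T v hK hσ (fun j B hB => hcard _ j B hB) h1 h2 h3 h

theorem SurA_pl {w : SS} (key : KeyS w) {K : ℝ} {d : ℕ} (hK : 9 ≤ K)
    (hirr : Irrational K) {n' Z' : ℝ}
    (hcard : ∀ (x : ℝ) (j : ℕ), n' * j < Z' → ∃ B : Finset ℤ,
      (∀ c ∈ B, c ∈ U x (3 * d - K * j) K) ∧ Z' - n' * j ≤ (B.card : ℝ))
    (h : SurA w (Op Z' n')) : SurA w (TT d) := by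
  obtain ⟨v, τ, α, h4, h5, h7, h6⟩ := exists_tau K d
  refine key d τ h4 h5 (h7 hirr) ?_
  rw [h6]
  exact SurA_T v hK (fun j hj => hcard _ j hj) h

/-- independence with a bounded error `e` of the rows -/
theorem SurA_err {w : SS} (key : KeyS w) {K : ℝ} {d : ℕ} (hK : 9 ≤ K)
    (hirr : Irrational K) {e Z' : ℝ} (he : 0 ≤ e)
    (hrow : ∀ (x Y : ℝ), 0 ≤ Y → ∃ B : Finset ℤ, (∀ c ∈ B, c ∈ U x Y K) ∧ ell Y K - e ≤ (B.card : ℝ))
    (hZ : Z' + K ^ 2 / 18 + e ≤ K / 3 * (d + 3 / 2))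
    (h : SurA w (Op Z' (K ^ 2 / 9))) : SurA w (TT d) := by
  refine SurA_pl key hK hirr (n' := K ^ 2 / 9) (Z' := Z') ?_ h
  intro x j hj
  have hY : 0 ≤ 3 * (d : ℝ) - K * j := by
    have h1 : K ^ 2 / 9 * j + K ^ 2 / 18 < K / 3 * (d + 3 / 2) := by linarith
    have h2 : K * (K * j / 9 + K / 18) < K * ((d + 3 / 2) / 3) := by
      have e1 : K * (K * j / 9 + K / 18) = K ^ 2 / 9 * j + K ^ 2 / 18 := by ring
      have e2 : K * (((d : ℝ) + 3 / 2) / 3) = K / 3 * (d + 3 / 2) := by ring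
      rw [e1, e2]; exact h1
    have h3 := lt_of_mul_lt_mul_left h2 (by linarith)
    linarith
  obtain ⟨B, hB1, hB2⟩ := hrow x _ hY
  refine ⟨B, hB1, ?_⟩
  rw [ell_row] at hB2
  linarith

/-- emptiness with a bounded error `e` of the rows -/
theorem EmpA_err {w : ES} (key : KeyE w) {K : ℝ} {d : ℕ} (hK : 9 ≤ K) {e Z' : ℝ} {σ : ℕ}
    (hσ : (σ : ℝ) + 1 ≤ K ^ 2 / 9) {J : ℕ} (hJ1 : K * J ≤ 3 * d) (hJ2 : 3 * (d : ℝ) < K * (J + 1))
    (hrow : ∀ (x Y : ℝ), K ≤ Y → ∀ B : Finset ℤ, (∀ c ∈ B, c ∈ U x Y K) → (B.card : ℝ) ≤ ell Y K + e)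
    (hZ : K / 3 * (d + 3 / 2) + e + (K ^ 2 / 9 - σ) ≤ Z' + K ^ 2 / 18)
    (htop : (3 * d - K * J) ^ 2 / 18 + 11 / 18 * (3 * d - K * J) + 17 / 8 + σ * J ≤ Z')
    (h : EmpA w (Cl Z' (K ^ 2 / 9))) : EmpA w (TT d) := by
  classical
  have hK0 : 0 < K := by linarith
  refine EmpA_pl key hK0.le hσ (J := J) (ρ := fun j => if j < J then ell (3 * d - K * j) K + e else
    if j = J then (3 * d - K * J) ^ 2 / 18 + 11 / 18 * (3 * d - K * J) + 17 / 8 else 0) ?_ ?_ ?_ ?_ h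
  · intro x j B hB
    split_ifs with h1 h2
    · refine hrow x _ ?_ B hB
      have h3 : (j : ℝ) + 1 ≤ J := by exact_mod_cast h1
      have h4 := mul_le_mul_of_nonneg_left h3 hK0.le
      linarith
    · subst h2
      exact up_top hK (by linarith) (by linarith) hB
    · have h3 : (J : ℝ) + 1 ≤ j := by exact_mod_cast (by omega : J + 1 ≤ j)
      have h4 := mul_le_mul_of_nonneg_left h3 hK0.le
      have h5 : B = ∅ := by
        rw [Finset.eq_empty_iff_forall_notMem]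
        exact fun c hc => U_empty (by linarith) (hB c hc)
      rw [h5]; simp
  · intro j hj
    simp only [if_pos hj]
    rw [ell_row]
    linarith
  · simp only [lt_irrefl, if_false, if_true]
    exact htop
  · intro j hj
    simp only [if_neg (not_lt.2 hj.le), if_neg (show ¬ j = J by omega)]
    norm_num

/-- **the first step, independence** -/
theorem firstS {w : SS} (key : KeyS w) (P : ℕ) (hP : 2 ≤ P) (K δ : ℝ) (hK : K = 9 * P - 1 + 1 / P + δ)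
    (hδ0 : 0 ≤ δ) (hδ : δ * P ^ 2 ≤ 1) (hirr : Irrational K)
    (d : ℕ) (Z : ℝ) (hZ : Z + K ^ 2 / 18 + 10 ≤ K / 3 * (d + 3 / 2)) (h : SurA w (Op Z (K ^ 2 / 9))) :
    SurA w (TT d) := by
  obtain ⟨hK1, hK2⟩ := K_bounds hP hK hδ0 hδ
  have hP2 : (2 : ℝ) ≤ P := by exact_mod_cast hP
  exact SurA_err key (by linarith) hirr (e := 8) (by norm_num) (row_low_rot hP hK hδ0 hδ) (by linarith) h

/-- **the first step, emptiness** -/
theorem firstE (P : ℕ) (hP : 2 ≤ P) : ∃ d0 : ℕ, ∀ (K δ : ℝ), K = 9 * P - 1 + 1 / P + δ →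
    0 ≤ δ → δ * P ^ 2 ≤ 1 → ∀ (w : ES), KeyE w → ∀ (d : ℕ) (Z : ℝ), d0 ≤ d →
    K / 3 * (d + 3 / 2) + 10 ≤ Z + K ^ 2 / 18 → EmpA w (Cl Z (K ^ 2 / 9)) → EmpA w (TT d) := by
  refine ⟨3 * P * (10 * P ^ 2 + 1), fun K δ hK hδ0 hδ w key d Z hd hZ h => ?_⟩
  obtain ⟨hK1, hK2⟩ := K_bounds hP hK hδ0 hδ
  have hP2 : (2 : ℝ) ≤ P := by exact_mod_cast hP
  have hK0 : 0 < K := by linarith
  have hd0 : (0 : ℝ) ≤ d := Nat.cast_nonneg d
  have hdR : 3 * (P : ℝ) * (10 * P ^ 2 + 1) ≤ d := by exact_mod_cast hd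
  obtain ⟨J, hJ⟩ : ∃ J : ℕ, J = ⌊3 * (d : ℝ) / K⌋₊ := ⟨_, rfl⟩
  have hJ1 : K * J ≤ 3 * d := by
    have := Nat.floor_le (show 0 ≤ 3 * (d : ℝ) / K by positivity)
    rw [← hJ, le_div_iff₀ hK0] at this
    linarith
  have hJ2 : 3 * (d : ℝ) < K * (J + 1) := by
    have := Nat.lt_floor_add_one (3 * (d : ℝ) / K)
    rw [← hJ, div_lt_iff₀ hK0] at this
    linarith
  have hJ3 : 10 * (P : ℝ) ^ 2 ≤ J := by
    have h1 : 9 * (P : ℝ) * (10 * P ^ 2 + 1) < 9 * P * (J + 1) := by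
      have h2 : K * ((J : ℝ) + 1) ≤ 9 * P * (J + 1) :=
        mul_le_mul_of_nonneg_right hK2.le (by positivity)
      linarith
    have h3 := lt_of_mul_lt_mul_left h1 (by positivity)
    linarith
  have hν : 2 ≤ K ^ 2 / 9 := by nlinarith
  have h1 : 1 ≤ ⌊K ^ 2 / 9⌋₊ := Nat.le_floor (by push_cast; linarith)
  have hsig : ((⌊K ^ 2 / 9⌋₊ - 1 : ℕ) : ℝ) + 1 ≤ K ^ 2 / 9 := by
    push_cast [Nat.cast_sub h1]
    have := Nat.floor_le (show 0 ≤ K ^ 2 / 9 by linarith)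
    linarith
  have hsig2 : K ^ 2 / 9 - ((⌊K ^ 2 / 9⌋₊ - 1 : ℕ) : ℝ) ≤ 2 := by
    push_cast [Nat.cast_sub h1]
    have := Nat.lt_floor_add_one (K ^ 2 / 9)
    linarith
  refine EmpA_err key (by linarith) (e := 8) hsig hJ1 hJ2 (row_up_rot hP hK hδ0 hδ) (by linarith) ?_ h
  obtain ⟨Y, hY⟩ : ∃ Y : ℝ, Y = 3 * d - K * J := ⟨_, rfl⟩
  have hY0 : 0 ≤ Y := by rw [hY]; linarith
  have hYK : Y < K := by rw [hY]; linarith
  have hσJ : ((⌊K ^ 2 / 9⌋₊ - 1 : ℕ) : ℝ) * J ≤ (K ^ 2 / 9 - 1) * J :=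
    mul_le_mul_of_nonneg_right (by linarith) (Nat.cast_nonneg J)
  have e1 : K ^ 2 / 9 * J = K / 3 * d - K * Y / 9 := by rw [hY]; ring
  rw [← hY]
  have h5 : (K - Y) ^ 2 ≤ K ^ 2 := pow_le_pow_left₀ (by linarith) (by linarith) 2
  have h6 : K ^ 2 ≤ 81 * P ^ 2 := by nlinarith
  have h7 : (P : ℝ) ≤ P ^ 2 / 2 := by nlinarith
  nlinarith

end Pool.Agent.TH183.QS
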