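import Pool.Agent.TH183.QS.Key
import Pool.Agent.TH183.QC.Shape
import Pool.Agent.TH183.QC.Coll
import Pool.Agent.TH308.QM.Fin

/-! General collisions for every number `r ≥ 10`: the simple two-sided window (the independence half
follows `Pool.Agent.TH387.SH.Two`). -/

namespace Pool.Agent.TH183.QS

open Finset Pool.Agent.TH176.Nag Pool.Agent.TH603.Sur Pool.Agent.TH181.NagM Pool.Agent.TH183.QC
open Pool.Agent.TH183.QI Pool.Agent.H932R2 Pool.Agent.H932R3
open Pool.Agent.TH183.QN (EmpW TT)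

/-- the base of the final step, with a slope at most the number of points -/
theorem SP_base {w : SS} {n c : ℝ} {r Z : ℕ} (hn : 0 < n) (hr : n ≤ r) (hc : n + Z ≤ c * √n)
    (h : SurA w (Op (Z : ℝ) (r : ℝ))) : SP w c 0 n := by
  refine ⟨by simpa using hn, fun E hE α => ?_⟩
  rw [zero_add]
  have hs : 0 < √n := Real.sqrt_pos.2 hn
  have h1 : c * √n < E * √n := mul_lt_mul_of_pos_right hE hs
  refine SurA.shift h (-⌊α⌋ - 1) (-1) ?_
  rintro ⟨a, b⟩ ⟨h2, h3, h4⟩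
  simp only at h2 h3 h4
  have h5 : a + r * b + 1 ≤ (Z : ℤ) := by
    have : ((a + r * b : ℤ) : ℝ) < ((Z : ℤ) : ℝ) := by push_cast; exact h4
    have := Int.cast_lt.1 this
    omega
  have h5' : (a : ℝ) + r * b + 1 ≤ Z := by
    have : ((a + r * b + 1 : ℤ) : ℝ) ≤ ((Z : ℤ) : ℝ) := by exact_mod_cast h5
    push_cast at this
    exact this
  have hb : (0 : ℝ) ≤ b := by exact_mod_cast h3
  have h6 : n * b ≤ r * b := mul_le_mul_of_nonneg_right hr hb
  have h7 := Int.floor_le α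
  have h8 := Int.lt_floor_add_one α
  have ha : (0 : ℝ) ≤ a := by exact_mod_cast h2
  refine ⟨by simp only; omega, ?_, ?_⟩
  · simp only
    push_cast
    linarith
  · simp only
    push_cast
    linarith

/-- independence on the triangles of the key lemma -/
theorem SP_shape {w : SS} {c s : ℝ} (hc0 : 0 ≤ c) (hs : 3 ≤ s)
    (h : SP w c 0 (s ^ 2)) (v : ℤ) : SP w c (3 * s - v) (9 - 3 * s + v) := by
  have hcl := SP_closed (w := w) hc0
  have hs0 : 0 < s := by linarith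
  -- the shape `(3 s, s ^ 2 - 3 s)`
  have h1 : SP w c (3 * s) (s ^ 2 - 3 * s) := by
    have e : 3 * s + (s ^ 2 - 3 * s) = s ^ 2 := by ring
    refine (Mv.toRT (μ := 3 * s) (ν := s ^ 2 - 3 * s) (by rw [e]; positivity)).closed hcl ?_
    rw [e]
    exact h
  have h2 : SP w c (3 * s - 9) (18 - 3 * s) := by
    refine hcl.stepA 1 9 isCoprime_one_left (by norm_num) (by push_cast; linarith)
      (by push_cast; linarith) (by linarith) ?_
    have e1 : ((1 : ℤ) : ℝ) * (((1 : ℤ) : ℝ) * (3 * s - 9) + ((9 : ℤ) : ℝ)) = 3 * s := by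
      push_cast; ring
    have e2 : (((9 : ℤ) : ℝ) - ((1 : ℤ) : ℝ) * (18 - 3 * s)) * (((1 : ℤ) : ℝ) * (3 * s - 9) +
        ((9 : ℤ) : ℝ)) / (3 * s - 9 + (18 - 3 * s)) = s ^ 2 - 3 * s := by
      push_cast
      have : (3 * s - 9 + (18 - 3 * s) : ℝ) = 9 := by ring
      rw [this]; ring
    rw [e1, e2]
    exact h1
  refine hcl.shear (v - 9) ?_
  have e3 : 3 * s - (v : ℝ) + ((v - 9 : ℤ) : ℝ) = 3 * s - 9 := by push_cast; ring
  have e4 : 9 - 3 * s + (v : ℝ) - ((v - 9 : ℤ) : ℝ) = 18 - 3 * s := by push_cast; ring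
  rw [e3, e4]
  exact h2

/-- independence on the forms of degree `d` -/
theorem SurA_plane {w : SS} (hk : KeyS w) {r Z d : ℕ} (hr : 10 ≤ r)
    (h : (r : ℝ) + Z < √(r : ℝ) * (d + 3)) (hb : SurA w (Op (Z : ℝ) (r : ℝ))) : SurA w (TT d) := by
  obtain ⟨N, hN⟩ : ∃ N : ℝ, N = (r : ℝ) := ⟨_, rfl⟩
  have hN10 : 10 ≤ N := by rw [hN]; exact_mod_cast hr
  rw [← hN] at h
  obtain ⟨q, hq⟩ : ∃ q : ℝ, q = √N := ⟨_, rfl⟩
  have hq2 : q ^ 2 = N := by rw [hq]; exact Real.sq_sqrt (by linarith)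
  have hq3 : 3 < q := by
    rw [hq]
    rw [Real.lt_sqrt (by norm_num)]
    linarith
  obtain ⟨M, hM⟩ : ∃ M : ℝ, M = (Z : ℝ) := ⟨_, rfl⟩
  have hM0 : 0 ≤ M := by rw [hM]; positivity
  rw [← hM, ← hq] at h
  -- the offset
  obtain ⟨v, hv⟩ : ∃ v : ℤ, v = ⌈3 * q⌉ - 4 := ⟨_, rfl⟩
  have hv1 : 3 * q - 4 ≤ v := by
    rw [hv]; push_cast; have := Int.le_ceil (3 * q); linarith
  have hv2 : (v : ℝ) < 3 * q - 3 := by
    rw [hv]; push_cast; have := Int.ceil_lt_add_one (3 * q); linarith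
  -- choose an irrational number slightly smaller than `q`
  obtain ⟨lo, hlo⟩ : ∃ lo : ℝ, lo = max (max 3 (q - 1 / 6)) (max (1 + (v : ℝ) / 3) ((N + M) / (d + 3))) :=
    ⟨_, rfl⟩
  have hd3 : (0 : ℝ) < d + 3 := by positivity
  have hlor : lo < q := by
    rw [hlo]
    refine max_lt (max_lt hq3 (by linarith)) (max_lt (by linarith) ?_)
    rw [div_lt_iff₀ hd3]
    exact h
  obtain ⟨s, hs, hs1, hs2⟩ := exists_irrational_btwn hlor
  have a1 : 3 < s := lt_of_le_of_lt (by rw [hlo]; exact (le_max_left _ _).trans (le_max_left _ _)) hs1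
  have a2 : q - 1 / 6 < s :=
    lt_of_le_of_lt (by rw [hlo]; exact (le_max_right _ _).trans (le_max_left _ _)) hs1
  have a3 : 1 + (v : ℝ) / 3 < s :=
    lt_of_le_of_lt (by rw [hlo]; exact (le_max_left _ _).trans (le_max_right _ _)) hs1
  have a4 : (N + M) / (d + 3) < s :=
    lt_of_le_of_lt (by rw [hlo]; exact (le_max_right _ _).trans (le_max_right _ _)) hs1
  rw [div_lt_iff₀ hd3] at a4
  have hs0 : 0 < s := by linarith
  have hsq : s ^ 2 < N := by rw [← hq2]; nlinarith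
  have hsr : √(s ^ 2) = s := Real.sqrt_sq hs0.le
  obtain ⟨c, hc⟩ : ∃ c : ℝ, c = (s ^ 2 + M) / s := ⟨_, rfl⟩
  have hc0 : 0 ≤ c := by rw [hc]; positivity
  have hcd : c < d + 3 := by
    rw [hc, div_lt_iff₀ hs0]
    linarith
  have h1 : SP w c 0 (s ^ 2) := by
    refine SP_base (r := r) (Z := Z) (by positivity) (by rw [← hN]; exact hsq.le) ?_ hb
    rw [hsr, hc, div_mul_cancel₀ _ hs0.ne', ← hM]
  have h2 := SP_shape hc0 a1.le h1 v
  -- the slope of the tube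
  obtain ⟨τ, hτ⟩ : ∃ τ : ℝ, τ = s - 1 - (v : ℝ) / 3 := ⟨_, rfl⟩
  have hτ0 : 0 < τ := by rw [hτ]; linarith
  have hτ1 : τ < 1 := by rw [hτ]; linarith
  have hirr : Irrational τ := by
    have e : τ = s - (((1 + v / 3 : ℚ)) : ℝ) := by rw [hτ]; push_cast; ring
    rw [e]
    exact hs.sub_ratCast _
  have h3 := h2.2 (d + 3) hcd (-(((d : ℝ) + 3) * (1 + τ)))
  have e9 : 3 * s - (v : ℝ) + (9 - 3 * s + v) = 3 ^ 2 := by ring
  rw [e9, Real.sqrt_sq (by norm_num)] at h3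
  refine hk d τ hτ0 hτ1 hirr ?_
  refine h3.shift 0 1 ?_
  rintro ⟨a, y⟩ ⟨h4, h5, h6⟩
  simp only at h4 h5 h6
  refine ⟨by simp only; omega, ?_, ?_⟩
  · simp only
    push_cast
    have : 3 * s - (v : ℝ) = 3 * (1 + τ) := by rw [hτ]; ring
    rw [this] at h5
    linarith
  · simp only
    push_cast
    have : 9 - 3 * s + (v : ℝ) = 3 * (2 - τ) := by rw [hτ]; ring
    rw [this] at h6
    linarith

end Pool.Agent.TH183.QS
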