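import Pool.Agent.TH183.QS.Two

/-! General collisions for every number `r ≥ 10`: from the plane systems to general collisions. -/

namespace Pool.Agent.TH183.QS

open Finset Pool.Agent.TH176.Nag Pool.Agent.TH603.Sur Pool.Agent.TH181.NagM Pool.Agent.TH183.QC
open Pool.Agent.TH183.QI Pool.Agent.H932R2 Pool.Agent.H932R3
open Pool.Agent.TH183.QN (EmpW TT)

universe u

/-- the system of emptiness predicates of one germ of weight `r` and multiplicity `m` -/
def es (r m : ℕ) : ES :=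
  esW (tw := fun _ : Unit => (r : ℝ)) (c := fun _ => (r * m : ℝ)) fun _ => Nat.cast_nonneg _

/-- the system of independence predicates of one germ of weight `r` and multiplicity `m` -/
def ss (r m : ℕ) : SS :=
  ssI (C := cnd r m) (EmpF.sys (tw := fun _ : Unit => (r : ℝ)) (c := fun _ => (r * m : ℝ))
    fun _ => Nat.cast_nonneg _)

theorem keyE (r m : ℕ) : KeyE (es r m) := keyE_esW fun _ => Nat.cast_nonneg _

theorem keyS (r m : ℕ) : KeyS (ss r m) := keyS_ssI fun _ => Nat.cast_nonneg _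

theorem es_cl (r m : ℕ) : EmpA (es r m) (Cl ((r * m : ℕ) : ℝ) (r : ℝ)) :=
  es_base (n := r) (fun _ : Unit => r) (by simp) m

theorem ss_op (r m : ℕ) : SurA (ss r m) (Op ((r * m : ℕ) : ℝ) (r : ℝ)) :=
  ss_base (n := r) (fun _ : Unit => r) (by simp) m

/-- independence in degree `d` -/
def IndAt (r m d : ℕ) : Prop := r * (m + 1).choose 2 ≤ (d + 2).choose 2 ∧
  EmpF ((d + 2).choose 2 - r * (m + 1).choose 2) (fun _ : Unit => (r : ℝ)) (fun _ => (r * m : ℝ)) (TT d)

theorem IndAt.of {r m d : ℕ} (h : SurA (ss r m) (TT d)) : IndAt r m d := by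
  obtain ⟨T, hT, hI⟩ := h
  obtain ⟨hf, hc⟩ := TT_ncard d
  obtain ⟨-, h4, h5⟩ := hI.mono (EmpF.sys fun i => Nat.cast_nonneg _) hT hf
  rw [hc] at h4 h5
  exact ⟨h4, h5⟩

/-- emptiness in degree `d` -/
def EmpAt (r m d : ℕ) : Prop := EmpW (fun _ : Unit => (r : ℝ)) (fun _ => (r * m : ℝ)) (TT d)

theorem EmpAt.of {r m d : ℕ} (h : EmpA (es r m) (TT d)) : EmpAt r m d := h

/-- **Nagata's inequality for the germ.** -/
theorem empAt_nagata {r m d : ℕ} (hr : 9 ≤ r) (h : (d : ℝ) < m * √(r : ℝ)) : EmpAt r m d := by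
  have hrR : (9 : ℝ) ≤ r := by exact_mod_cast hr
  have hs : 0 < √(r : ℝ) := Real.sqrt_pos.2 (by linarith)
  have hss : √(r : ℝ) * √(r : ℝ) = r := Real.mul_self_sqrt (by linarith)
  refine Pool.Agent.TH308.QM.EmpW_plane (fun _ => by linarith) (by simpa using hrR) ?_
  simp only [Fintype.sum_unique]
  calc (d : ℝ) * √(r : ℝ) < m * √(r : ℝ) * √(r : ℝ) := mul_lt_mul_of_pos_right h hs
    _ = r * m := by rw [mul_assoc, hss]; ring

/-- the simple window, independence -/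
theorem indAt_plane {r m d : ℕ} (hr : 10 ≤ r) (h : √(r : ℝ) * (m + 1) < d + 3) : IndAt r m d := by
  refine IndAt.of (SurA_plane (keyS r m) hr ?_ (ss_op r m))
  have hrR : (10 : ℝ) ≤ r := by exact_mod_cast hr
  have hs : 0 < √(r : ℝ) := Real.sqrt_pos.2 (by linarith)
  have hss : √(r : ℝ) * √(r : ℝ) = r := Real.mul_self_sqrt (by linarith)
  have h1 := mul_lt_mul_of_pos_left h hs
  push_cast
  calc (r : ℝ) + r * m = √(r : ℝ) * (√(r : ℝ) * (m + 1)) := by rw [← mul_assoc, hss]; ring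
    _ < _ := h1

/-- one exceptional hypersurface for all degrees of two ranges -/
theorem coll_wrap {r m : ℕ} (hr : 0 < r) {PL PH : ℕ → Prop} (hb : ∃ N : ℕ, ∀ d, PL d → d ≤ N)
    (hL : ∀ d, PL d → EmpAt r m d) (hH : ∀ d, PH d → IndAt r m d) (L : Type u) [Field L] [CharZero L] :
    ∃ F : MvPolynomial (Fin (r + 1)) L, F ≠ 0 ∧
      ∀ (c : L) (a : Fin r → L), MvPolynomial.eval (Fin.cons c a : Fin (r + 1) → L) F ≠ 0 →
        ∀ d : ℕ, PL d ∨ PH d → JetDim r m c a d := by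
  classical
  have hlow : ∃ F : MvPolynomial (Fin (r + 1)) L, F ≠ 0 ∧
      ∀ (c : L) (a : Fin r → L), MvPolynomial.eval (Fin.cons c a : Fin (r + 1) → L) F ≠ 0 →
        ∀ d : ℕ, PL d → JetDim r m c a d := by
    by_cases hex : ∃ d, PL d
    · obtain ⟨N, hN⟩ := hb
      obtain ⟨d1, hd1⟩ := hex
      have h1 := Nat.findGreatest_spec (P := PL) (hN d1 hd1) hd1
      obtain ⟨F, hF, hF'⟩ := coll_zero hr (hL _ h1) L
      exact ⟨F, hF, fun c a hc d hd => hF' c a hc d (Nat.le_findGreatest (hN d hd) hd)⟩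
    · push Not at hex
      exact ⟨1, one_ne_zero, fun c a _ d hd => absurd hd (hex d)⟩
  have hhigh : ∃ F : MvPolynomial (Fin (r + 1)) L, F ≠ 0 ∧
      ∀ (c : L) (a : Fin r → L), MvPolynomial.eval (Fin.cons c a : Fin (r + 1) → L) F ≠ 0 →
        ∀ d : ℕ, PH d → JetDim r m c a d := by
    by_cases hex : ∃ d, PH d
    · obtain ⟨h3, h4⟩ := hH _ (Nat.find_spec hex)
      obtain ⟨F, hF, hF'⟩ := coll_ind hr (by omega) h4 L
      exact ⟨F, hF, fun c a hc d hd => hF' c a hc d (Nat.find_min' hex hd)⟩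
    · push Not at hex
      exact ⟨1, one_ne_zero, fun c a _ d hd => absurd hd (hex d)⟩
  obtain ⟨F, hF, hF'⟩ := hlow
  obtain ⟨G, hG, hG'⟩ := hhigh
  refine ⟨F * G, mul_ne_zero hF hG, fun c a hc d hd => ?_⟩
  rw [map_mul] at hc
  rcases hd with hd | hd
  · exact hF' c a (left_ne_zero_of_mul hc) d hd
  · exact hG' c a (right_ne_zero_of_mul hc) d hd

/-- vanishing for all degrees of a bounded range -/
theorem coll_wrap0 {r m : ℕ} (hr : 0 < r) {PL : ℕ → Prop} (hb : ∃ N : ℕ, ∀ d, PL d → d ≤ N)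
    (hL : ∀ d, PL d → EmpAt r m d) (L : Type u) [Field L] [CharZero L] :
    ∃ F : MvPolynomial (Fin (r + 1)) L, F ≠ 0 ∧
      ∀ (c : L) (a : Fin r → L), MvPolynomial.eval (Fin.cons c a : Fin (r + 1) → L) F ≠ 0 →
        ∀ d : ℕ, PL d → NoForm (jetIdeal m c a) d := by
  classical
  by_cases hex : ∃ d, PL d
  · obtain ⟨N, hN⟩ := hb
    obtain ⟨d1, hd1⟩ := hex
    have h1 := Nat.findGreatest_spec (P := PL) (hN d1 hd1) hd1
    obtain ⟨F, hF, hF'⟩ := coll_noForm hr (hL _ h1) L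
    exact ⟨F, hF, fun c a hc d hd => hF' c a hc d (Nat.le_findGreatest (hN d hd) hd)⟩
  · push Not at hex
    exact ⟨1, one_ne_zero, fun c a _ d hd => absurd hd (hex d)⟩

end Pool.Agent.TH183.QS
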