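import Pool.Agent.TH183.QS.Plane
import Pool.Agent.TH183.QS.Wrap
import Pool.Agent.TH641.NW.Cnt2

/-! Explicit windows for every number `n ≥ 10`, for the abstract systems and for general collisions
(follows `Pool.Agent.TH641.NW.Win2`). -/

namespace Pool.Agent.TH183.QS

open Finset Pool.Agent.TH176.Nag Pool.Agent.TH603.Sur Pool.Agent.TH183.QC
open Pool.Agent.TH183.QN (TT)
open Pool.Agent.TH641.NW (U ell Lam NN up_top up_row2 low_row2 U_empty ell_row)

theorem EmpA_win_core {w : ES} (key : KeyE w) {n Z : ℕ} (hn : 10 ≤ n)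
    (h0 : EmpA w (Cl (Z : ℝ) (n : ℝ))) {d J : ℕ}
    (h1 : √(n : ℝ) * (d + 3 / 2) + √(n : ℝ) / 3 + 9 / 8 < ((Z : ℕ) : ℝ) + n / 2)
    (hJ1 : √(n : ℝ) * J ≤ d) (hJ2 : (d : ℝ) < √(n : ℝ) * (J + 1))
    (htop : (3 * d - 3 * √(n : ℝ) * J) ^ 2 / 18 + 11 / 18 * (3 * d - 3 * √(n : ℝ) * J) + 17 / 8 +
      ((n : ℝ) - 1) * J ≤ ((Z : ℕ) : ℝ)) : EmpA w (TT d) := by
  classical
  have hnR : (10 : ℝ) ≤ n := by exact_mod_cast hn
  have hs : √(n : ℝ) * √(n : ℝ) = n := Real.mul_self_sqrt (by linarith)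
  have hs3 : 3 ≤ √(n : ℝ) := Real.le_sqrt_of_sq_le (by linarith)
  have eK : (3 * √(n : ℝ)) ^ 2 = 9 * n := by rw [mul_pow, sq (√(n : ℝ)), hs]; ring
  have hσ : ((n - 1 : ℕ) : ℝ) = n - 1 := by
    rw [Nat.cast_sub (by omega)]; push_cast; ring
  have hK0 : 0 ≤ 3 * √(n : ℝ) := by linarith
  refine EmpA_pl key (K := 3 * √(n : ℝ)) hK0 (n' := (n : ℝ)) (Z' := ((Z : ℕ) : ℝ))
    (σ := n - 1) (J := J) (ρ := fun j => if j < J then ((Z : ℕ) : ℝ) - 1 - n * j else
    if j = J then (3 * d - 3 * √(n : ℝ) * J) ^ 2 / 18 + 11 / 18 * (3 * d - 3 * √(n : ℝ) * J) + 17 / 8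
      else 0) ?_ ?_ ?_ ?_ ?_ ?_
  · rw [hσ]; linarith
  · intro x j B hB
    split_ifs with h2 h3
    · have h3 : (j : ℝ) + 1 ≤ J := by exact_mod_cast h2
      have h4 := mul_le_mul_of_nonneg_left h3 hK0
      have h5 := up_row2 (x := x) (by linarith) (by linarith) hB
      rw [ell_row, eK] at h5
      have h6 : (B.card : ℝ) < (((Z : ℕ) : ℤ) - n * j : ℤ) := by
        push_cast
        push_cast at h1
        linarith
      have h7 : (B.card : ℤ) < ((Z : ℕ) : ℤ) - n * j := by exact_mod_cast h6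
      have h8 : (B.card : ℤ) ≤ ((Z : ℕ) : ℤ) - 1 - n * j := by omega
      exact_mod_cast h8
    · subst h3
      exact up_top (by linarith) (by linarith) (by linarith) hB
    · have h3 : (J : ℝ) + 1 ≤ j := by exact_mod_cast (by omega : J + 1 ≤ j)
      have h4 := mul_le_mul_of_nonneg_left h3 hK0
      have h5 : B = ∅ := by
        rw [Finset.eq_empty_iff_forall_notMem]
        exact fun c hc => U_empty (by linarith) (hB c hc)
      rw [h5]; simp
  · intro j hj
    simp only [if_pos hj]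
    rw [hσ]
    linarith
  · simp only [lt_irrefl, if_false, if_true]
    rw [hσ]
    exact htop
  · intro j hj
    simp only [if_neg (not_lt.2 hj.le), if_neg (show ¬ j = J by omega)]
    norm_num
  · exact h0

/-- emptiness for equal multiplicities which are not small -/
theorem empAt_win {n m d : ℕ} (hn : 10 ≤ n) (hm : (n : ℝ) - 6 * √(n : ℝ) + 10 ≤ m)
    (h1 : √(n : ℝ) * (d + 3 / 2) + √(n : ℝ) / 3 + 9 / 8 < n * m + n / 2) :
    EmpAt n m d := by
  have hnR : (10 : ℝ) ≤ n := by exact_mod_cast hn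
  obtain ⟨s, hsdef⟩ : ∃ s, s = √(n : ℝ) := ⟨_, rfl⟩
  have hs : s * s = n := by rw [hsdef]; exact Real.mul_self_sqrt (by linarith)
  have hs3 : 3 ≤ s := by rw [hsdef]; exact Real.le_sqrt_of_sq_le (by norm_num; linarith)
  have hs0 : 0 < s := by linarith
  rcases lt_or_ge (s * d) ((n : ℝ) * m) with hlt | hge
  · refine empAt_nagata (by omega) ?_
    rw [← hsdef]
    have h3 : s * (d : ℝ) < s * (m * s) := by
      calc s * (d : ℝ) < (n : ℝ) * m := hlt
        _ = s * (m * s) := by rw [← hs]; ring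
    exact lt_of_mul_lt_mul_left h3 hs0.le
  · rw [← hsdef] at hm h1
    have h2 : s * m ≤ d := by
      have h3 : s * (s * m) ≤ s * d := by rw [← mul_assoc, hs]; exact hge
      exact le_of_mul_le_mul_left h3 hs0
    have h3 : (d : ℝ) + 11 / 6 ≤ s * m + s / 2 := by
      have h4 : s * ((d : ℝ) + 11 / 6) ≤ s * (s * m + s / 2) := by
        have e : s * (s * m + s / 2) = n * m + n / 2 := by rw [← hs]; ring
        rw [e]; linarith
      exact le_of_mul_le_mul_left h4 hs0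
    have hW : ((n * m : ℕ) : ℝ) = n * m := by push_cast; ring
    refine EmpAt.of (EmpA_win_core (keyE n m) (Z := n * m) hn (es_cl n m) (J := m) ?_ ?_ ?_ ?_)
    · rw [← hsdef, hW]; exact h1
    · rw [← hsdef]; exact h2
    · rw [← hsdef]; linarith
    · rw [← hsdef, hW]
      obtain ⟨Y, hY⟩ : ∃ Y : ℝ, Y = 3 * d - 3 * s * m := ⟨_, rfl⟩
      have hY0 : 0 ≤ Y := by rw [hY]; linarith
      have hY1 : Y ≤ 3 / 2 * s - 11 / 2 := by rw [hY]; linarith
      have hY2 : s * Y ≤ 3 * (n / 2 - 11 / 6 * s - 9 / 8) := by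
        have e : s * Y = 3 * (s * d - n * m) := by rw [hY, ← hs]; ring
        rw [e]; linarith
      rw [← hY]
      rcases lt_or_ge s 4.4 with hs4 | hs4
      · have h5 : 0 ≤ s * Y := mul_nonneg hs0.le hY0
        rw [← hs] at hY2
        have h6 : 4.2 ≤ s := by
          by_contra hcon
          push Not at hcon
          nlinarith
        have h7 : Y ≤ 0.34 := by
          by_contra hcon
          push Not at hcon
          have h8 := mul_lt_mul_of_pos_left hcon hs0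
          nlinarith
        have h8 : Y ^ 2 ≤ 0.34 ^ 2 := pow_le_pow_left₀ hY0 h7 2
        have h9 : 2.4 ≤ (m : ℝ) := by
          rw [← hs] at hm
          nlinarith
        linarith
      have h6 : Y ^ 2 + 11 * Y ≤ 9 / 4 * n - 121 / 4 := by
        have h8 := pow_le_pow_left₀ hY0 hY1 2
        have e : (3 / 2 * s - 11 / 2) ^ 2 = 9 / 4 * (s * s) - 33 / 2 * s + 121 / 4 := by ring
        rw [e, hs] at h8
        linarith
      have h7 : (n : ℝ) / 8 + 4 / 9 ≤ m := by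
        have h8 : 0 ≤ (s - 4.4) * (7 / 8 * s - 2.15) := mul_nonneg (by linarith) (by linarith)
        have e : (s - 4.4) * (7 / 8 * s - 2.15) = 7 / 8 * (s * s) - 6 * s + 9.46 := by ring
        rw [e, hs] at h8
        linarith
      linarith

/-- independence -/
theorem SurA_win {w : SS} (key : KeyS w) {n Z : ℕ} (hn : 10 ≤ n)
    (h0 : SurA w (Op (Z : ℝ) (n : ℝ))) {d : ℕ}
    (h1 : ((Z : ℕ) : ℝ) + n / 2 + √(n : ℝ) / 3 + 1 / 8 < √(n : ℝ) * (d + 3 / 2)) :
    SurA w (TT d) := by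
  have hnR : (10 : ℝ) ≤ n := by exact_mod_cast hn
  obtain ⟨s, hsdef⟩ : ∃ s, s = √(n : ℝ) := ⟨_, rfl⟩
  obtain ⟨W, hW⟩ : ∃ W : ℝ, W = ((Z : ℕ) : ℝ) := ⟨_, rfl⟩
  have hs : s * s = n := by rw [hsdef]; exact Real.mul_self_sqrt (by linarith)
  have hs3 : 3.1 ≤ s := by rw [hsdef]; exact Real.le_sqrt_of_sq_le (by norm_num; linarith)
  have hs0 : 0 < s := by linarith
  rw [← hsdef, ← hW] at h1
  -- an irrational slope slightly smaller than `3 s`
  obtain ⟨η, hη0, hη⟩ : ∃ η : ℝ, 0 < η ∧ η ≤ 0.3 ∧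
      W + n / 2 + s / 3 + 1 / 8 + η * ((d + 3 / 2) / 3) ≤ s * (d + 3 / 2) := by
    have hd : 0 < ((d : ℝ) + 3 / 2) / 3 := by positivity
    refine ⟨min 0.3 ((s * (d + 3 / 2) - (W + n / 2 + s / 3 + 1 / 8)) / ((d + 3 / 2) / 3)), ?_,
      min_le_left _ _, ?_⟩
    · exact lt_min (by norm_num) (div_pos (by linarith) hd)
    · have h2 := mul_le_mul_of_nonneg_right (min_le_right (0.3 : ℝ)
        ((s * (d + 3 / 2) - (W + n / 2 + s / 3 + 1 / 8)) / ((d + 3 / 2) / 3))) hd.le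
      rw [div_mul_cancel₀ _ hd.ne'] at h2
      linarith
  obtain ⟨K, hKirr, hK1, hK2⟩ := exists_irrational_btwn (show 3 * s - η < 3 * s by linarith)
  have hK9 : 9 ≤ K := by linarith [hη.1]
  have hKs : K ^ 2 ≤ 9 * n := by
    have : K ^ 2 ≤ (3 * s) ^ 2 := pow_le_pow_left₀ (by linarith) hK2.le 2
    have e : (3 * s) ^ 2 = 9 * n := by rw [mul_pow, sq s, hs]; ring
    linarith
  have hmain : W + n / 2 + K / 9 + 1 / 8 ≤ K / 3 * ((d : ℝ) + 3 / 2) := by
    have h3 : (3 * s - η) / 3 * ((d : ℝ) + 3 / 2) ≤ K / 3 * (d + 3 / 2) :=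
      mul_le_mul_of_nonneg_right (by linarith) (by positivity)
    have h4 : (3 * s - η) / 3 * ((d : ℝ) + 3 / 2) = s * (d + 3 / 2) - η * ((d + 3 / 2) / 3) := by ring
    linarith [hη.2]
  refine SurA_pl key hK9 hKirr (n' := (n : ℝ)) (Z' := W) ?_ ?_
  · intro x j hj
    have hj0 : (0 : ℝ) ≤ j := Nat.cast_nonneg j
    have hY : 0 ≤ 3 * (d : ℝ) - K * j := by
      -- `K j ≤ 3 s j` and `n j < W`
      have h3 : K * j ≤ 3 * s * j := mul_le_mul_of_nonneg_right hK2.le hj0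
      have h4 : s * (3 * s * j) < s * (3 * d) := by
        have e : s * (3 * s * (j : ℝ)) = 3 * (n * j) := by rw [← hs]; ring
        rw [e]
        have h5 : W + n / 2 + s / 3 + 1 / 8 < s * (d + 3 / 2) := h1
        have h6 : 3 / 2 * s ≤ n / 2 + s / 3 := by rw [← hs]; nlinarith
        linarith
      have h5 := lt_of_mul_lt_mul_left h4 hs0.le
      linarith
    obtain ⟨B, hB1, hB2⟩ := low_row2 (x := x) hK9 hY
    refine ⟨B, hB1, ?_⟩
    rw [ell_row] at hB2
    have h7 : K ^ 2 / 9 * j ≤ n * j := mul_le_mul_of_nonneg_right (by linarith) hj0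
    have h8 : W - n * j - 1 < (B.card : ℝ) := by linarith
    rw [hW] at h8 ⊢
    have h9 : ((((Z : ℕ) : ℤ) - n * j - 1 : ℤ) : ℝ) < ((B.card : ℤ) : ℝ) := by
      push_cast at h8 ⊢
      exact h8
    have h10 : ((Z : ℕ) : ℤ) - n * j - 1 < (B.card : ℤ) := by exact_mod_cast h9
    have h11 : ((Z : ℕ) : ℤ) - n * j ≤ (B.card : ℤ) := by omega
    exact_mod_cast h11
  · rw [hW]
    exact h0

/-- independence for general collisions -/
theorem indAt_win {r m d : ℕ} (hr : 10 ≤ r)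
    (h : (r : ℝ) * m + r / 2 + √(r : ℝ) / 3 + 1 / 8 < √(r : ℝ) * (d + 3 / 2)) : IndAt r m d := by
  refine IndAt.of (SurA_win (keyS r m) hr (ss_op r m) ?_)
  push_cast
  exact h

end Pool.Agent.TH183.QS
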